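import Pool.Agent.ALT.Tu.Defs

/-! # ALT: the leaf conditions in terms of the two graphs -/

set_option autoImplicit false

namespace Pool.ALT

/-- What the Morse word block proves about the two graphs of a leaf: they are dual
(`Du`), there are at least two edges, and `g` and `g / ab` are 2-connected (their cycle matroids
are connected): `r(A) + r(Aᶜ) ≥ r(E) + 1` for every nonempty proper set of edges. -/
structure Lg {V W E : Type} [Fintype V] [Fintype W] [Fintype E] [DecidableEq E]
    (g : Gr V E) (h : Gr W E) : Prop where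
  du : Du g h
  two : 2 ≤ Fintype.card E
  pr : ∀ A : Finset E, A.Nonempty → A ≠ Finset.univ →
    nc (g.sp ⊥ A) + nc (g.sp ⊥ (Finset.univ \ A)) ≤ Fintype.card V
  pr' : ∀ A : Finset E, A.Nonempty → A ≠ Finset.univ →
    nc (g.sp ⊥ A ⊔ g.ab) + nc (g.sp ⊥ (Finset.univ \ A) ⊔ g.ab) + 1 ≤ Fintype.card V

end Pool.ALT
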