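import Pool.Agent.ALT.Mo.St

/-! # ALT, block Mo: functions on the classes of a partition -/

set_option autoImplicit false

namespace Pool.ALT

private theorem ca_count {V : Type} [Finite V] (σ : Setoid V) :
    Nat.card {F : V → Bool // σ ≤ Setoid.ker F} = 2 ^ nc σ := by
  classical
  have : Finite (Quotient σ) := Quotient.finite _
  rw [Nat.card_congr (Setoid.liftEquiv (β := Bool) σ), Nat.card_fun, Nat.card_eq_fintype_card,
    Fintype.card_bool]
  rfl

private theorem ca_sep {V : Type} (σ : Setoid V) (x y : V) :
    σ x y ↔ ∀ F : V → Bool, σ ≤ Setoid.ker F → F x = F y := by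
  classical
  constructor
  · intro h F hF
    exact hF h
  · intro h
    have h1 : (fun z => decide (σ x z)) x = (fun z => decide (σ x z)) y := by
      refine h (fun z => decide (σ x z)) ?_
      intro p q hpq
      show decide (σ x p) = decide (σ x q)
      exact decide_eq_decide.2 ⟨fun h' => σ.trans' h' hpq, fun h' => σ.trans' h' (σ.symm' hpq)⟩
    have h2 : decide (σ x x) = decide (σ x y) := h1
    rw [decide_eq_true (σ.refl' x)] at h2
    exact of_decide_eq_true h2.symm

theorem thm_CA : St_CA := by
  classical
  intro V _ _ σ
  refine ⟨?_, ca_sep σ⟩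
  rw [← ca_count σ, Nat.card_eq_fintype_card, Fintype.card_subtype]

end Pool.ALT
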