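import Pool.Agent.ALT.Mo.St

/-! # ALT, block Mo: module CO (colourings of a state). Proof: docstring of `St_CO`. -/

set_option autoImplicit false

namespace Pool.ALT

open LaurentPolynomial Pool.Agent.ARB Pool.Agent.Helper2

private theorem co_seq {n : ℕ} (A : Finset (Fin n)) (k : Fin n) : seq A k = true ↔ k ∈ A := by
  unfold seq
  rw [decide_eq_true_eq]
  exact ⟨fun ⟨_, h⟩ => h, fun h => ⟨k.2, h⟩⟩

private theorem co_gs {w : Word} {x y : Loc 2 w} (h : R0 2 w x y) : gs 2 w x y :=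
  (pr_le_iff x y (gs 2 w)).1 (le_iSup_of_le x (le_iSup_of_le y (le_iSup_of_le h le_rfl)))

private theorem co_ker {w : Word} {f : Loc 2 w → Bool} (h : ∀ x y, R0 2 w x y → f x = f y)
    {x y : Loc 2 w} (hxy : gs 2 w x y) : f x = f y := by
  have h1 : gs 2 w ≤ Setoid.ker f :=
    iSup_le fun x => iSup_le fun y => iSup_le fun h0 => (pr_le_iff _ _ _).2 (h x y h0)
  exact h1 hxy

private theorem co_sp {V E : Type} (g : Gr V E) (A : Finset E) (F : V → Bool) :
    g.sp ⊥ A ≤ Setoid.ker F ↔ ∀ e ∈ A, F (g.u e) = F (g.v e) := by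
  unfold Gr.sp
  rw [bot_sup_eq, Finset.sup_le_iff]
  refine forall_congr' fun e => forall_congr' fun _ => ?_
  exact pr_le_iff _ _ _

/-- the colouring given by colourings of the two graphs -/
private noncomputable def co_comb {w : Word} (F₁ : Reg true w → Bool) (F₂ : Reg false w → Bool)
    (x : Loc 2 w) : Bool :=
  if hx : pa 2 w x = true then F₁ (reg x hx) else F₂ (reg x (Bool.eq_false_iff.2 hx))

private theorem co_comb_t {w : Word} (F₁ : Reg true w → Bool) (F₂ : Reg false w → Bool)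
    {x : Loc 2 w} (hx : pa 2 w x = true) : co_comb F₁ F₂ x = F₁ (reg x hx) := dif_pos hx

private theorem co_comb_f {w : Word} (F₁ : Reg true w → Bool) (F₂ : Reg false w → Bool)
    {x : Loc 2 w} (hx : pa 2 w x = false) : co_comb F₁ F₂ x = F₂ (reg x hx) := by
  have h : ¬ pa 2 w x = true := by rw [hx]; exact Bool.false_ne_true
  exact dif_neg h

private theorem co_reg {w : Word} {r : Bool} {x y : Loc 2 w} (h : gs 2 w x y) (hx : pa 2 w x = r)
    (hy : pa 2 w y = r) : reg x hx = reg y hy :=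
  Subtype.ext (Quotient.sound h)

private theorem co_Cp {w : Word} (h : Ok w 2 2) (A : Finset (Fin (nX w))) (F₁ : Reg true w → Bool)
    (F₂ : Reg false w → Bool) : Cp (seq A) 2 w (co_comb F₁ F₂) ↔
      ((gE w h).sp ⊥ A ≤ Setoid.ker F₁ ∧ (gO w h).sp ⊥ (Finset.univ \ A) ≤ Setoid.ker F₂) := by
  rw [co_sp, co_sp]
  have ht : ∀ k : Fin (nX w), (co_comb F₁ F₂ (ed true 2 w k).1 = co_comb F₁ F₂ (ed true 2 w k).2 ↔
      F₁ ((gE w h).u k) = F₁ ((gE w h).v k)) := by
    intro k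
    rw [co_comb_t F₁ F₂ (pa_ed w 2 2 true k h).1, co_comb_t F₁ F₂ (pa_ed w 2 2 true k h).2]
    exact Iff.rfl
  have hf : ∀ k : Fin (nX w),
      (co_comb F₁ F₂ (ed false 2 w k).1 = co_comb F₁ F₂ (ed false 2 w k).2 ↔
      F₂ ((gO w h).u k) = F₂ ((gO w h).v k)) := by
    intro k
    rw [co_comb_f F₁ F₂ (pa_ed w 2 2 false k h).1, co_comb_f F₁ F₂ (pa_ed w 2 2 false k h).2]
    exact Iff.rfl
  constructor
  · rintro ⟨-, h2⟩
    refine ⟨fun k hk => ?_, fun k hk => ?_⟩
    · have h3 := h2 k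
      rw [(co_seq A k).2 hk] at h3
      exact (ht k).1 h3
    · have h3 := h2 k
      have h4 : seq A k = false := by
        rw [Bool.eq_false_iff]
        intro h5
        exact (Finset.mem_sdiff.1 hk).2 ((co_seq A k).1 h5)
      rw [h4] at h3
      exact (hf k).1 h3
  · rintro ⟨h1, h2⟩
    refine ⟨fun x y hxy => ?_, fun k => ?_⟩
    · have h3 := co_gs hxy
      have h4 : pa 2 w x = pa 2 w y := pa_gs h h3
      by_cases hx : pa 2 w x = true
      · rw [co_comb_t F₁ F₂ hx, co_comb_t F₁ F₂ (h4.symm.trans hx), co_reg h3]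
      · rw [Bool.not_eq_true] at hx
        rw [co_comb_f F₁ F₂ hx, co_comb_f F₁ F₂ (h4.symm.trans hx), co_reg h3]
    · by_cases hk : k ∈ A
      · rw [(co_seq A k).2 hk]
        exact (ht k).2 (h1 k hk)
      · have h4 : seq A k = false := by
          rw [Bool.eq_false_iff]
          intro h5
          exact hk ((co_seq A k).1 h5)
        rw [h4]
        exact (hf k).2 (h2 k (Finset.mem_sdiff.2 ⟨Finset.mem_univ _, hk⟩))

private theorem co_surj {w : Word} {f : Loc 2 w → Bool}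
    (hf : ∀ x y, R0 2 w x y → f x = f y) : ∃ F₁ F₂, co_comb F₁ F₂ = f := by
  refine ⟨fun c => f c.2.choose, fun c => f c.2.choose, ?_⟩
  funext x
  have key : ∀ (r : Bool) (hx : pa 2 w x = r), f (reg x hx).2.choose = f x := by
    intro r hx
    have h1 := (reg x hx).2.choose_spec.2
    exact co_ker hf (Quotient.exact h1)
  by_cases hx : pa 2 w x = true
  · rw [co_comb_t _ _ hx]
    exact key true hx
  · rw [Bool.not_eq_true] at hx
    rw [co_comb_f _ _ hx]
    exact key false hx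

private theorem co_inj {w : Word} {F₁ F₁' : Reg true w → Bool} {F₂ F₂' : Reg false w → Bool}
    (h : co_comb F₁ F₂ = co_comb F₁' F₂') : F₁ = F₁' ∧ F₂ = F₂' := by
  constructor
  · funext c
    obtain ⟨c0, x, hx, rfl⟩ := c
    have h1 := congrFun h x
    rw [co_comb_t F₁ F₂ hx, co_comb_t F₁' F₂' hx] at h1
    exact h1
  · funext c
    obtain ⟨c0, x, hx, rfl⟩ := c
    have h1 := congrFun h x
    rw [co_comb_f F₁ F₂ hx, co_comb_f F₁' F₂' hx] at h1
    exact h1

open Classical in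
theorem thm_CO (hCA : St_CA) : St_CO := by
  intro w h A
  refine ⟨?_, ?_, ?_⟩
  · have h1 := (hCA ((gE w h).sp ⊥ A)).1
    have h2 := (hCA ((gO w h).sp ⊥ (Finset.univ \ A))).1
    have h3 : (((Finset.univ.filter fun F : Reg true w → Bool =>
        (gE w h).sp ⊥ A ≤ Setoid.ker F) ×ˢ (Finset.univ.filter fun F : Reg false w → Bool =>
        (gO w h).sp ⊥ (Finset.univ \ A) ≤ Setoid.ker F))).card =
        (Finset.univ.filter fun f : Loc 2 w → Bool => Cp (seq A) 2 w f).card := by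
      refine Finset.card_bij (fun p _ => co_comb p.1 p.2) ?_ ?_ ?_
      · intro p hp
        obtain ⟨hp1, hp2⟩ := Finset.mem_product.1 hp
        exact Finset.mem_filter.2 ⟨Finset.mem_univ _, (co_Cp h A p.1 p.2).2
          ⟨(Finset.mem_filter.1 hp1).2, (Finset.mem_filter.1 hp2).2⟩⟩
      · intro p _ q _ hpq
        obtain ⟨h4, h5⟩ := co_inj hpq
        exact Prod.ext h4 h5
      · intro f hf
        have hf2 := (Finset.mem_filter.1 hf).2
        obtain ⟨F₁, F₂, rfl⟩ := co_surj hf2.1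
        have hf3 := (co_Cp h A F₁ F₂).1 hf2
        exact ⟨(F₁, F₂), Finset.mem_product.2 ⟨Finset.mem_filter.2 ⟨Finset.mem_univ _, hf3.1⟩,
          Finset.mem_filter.2 ⟨Finset.mem_univ _, hf3.2⟩⟩, rfl⟩
    rw [Finset.card_product, h1, h2, ← pow_add] at h3
    exact h3.symm
  · rw [(hCA ((gE w h).sp ⊥ A)).2]
    constructor
    · intro h1 f hf
      obtain ⟨F₁, F₂, rfl⟩ := co_surj hf.1
      have hf3 := (co_Cp h A F₁ F₂).1 hf
      have h4 := h1 F₁ hf3.1
      rw [co_comb_t F₁ F₂ (pa_bo 2 w 0 (by omega)), co_comb_t F₁ F₂ (pa_bo 2 w 2 (by omega))]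
      exact h4
    · intro h1 F₁ hF
      have h2 := h1 (co_comb F₁ (fun _ => true)) ((co_Cp h A F₁ _).2
        ⟨hF, (co_sp _ _ _).2 (fun _ _ => rfl)⟩)
      rw [co_comb_t F₁ _ (pa_bo 2 w 0 (by omega)), co_comb_t F₁ _ (pa_bo 2 w 2 (by omega))] at h2
      exact h2
  · rw [(hCA ((gO w h).sp ⊥ (Finset.univ \ A))).2]
    constructor
    · intro h1 f hf
      obtain ⟨F₁, F₂, rfl⟩ := co_surj hf.1
      have hf3 := (co_Cp h A F₁ F₂).1 hf
      have h4 := h1 F₂ hf3.2
      rw [co_comb_f F₁ F₂ (pa_bo 2 w 1 (by omega)),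
        co_comb_f F₁ F₂ (pa_tp w 2 2 1 h (by omega))]
      exact h4
    · intro h1 F₂ hF
      have h2 := h1 (co_comb (fun _ => true) F₂) ((co_Cp h A _ F₂).2
        ⟨(co_sp _ _ _).2 (fun _ _ => rfl), hF⟩)
      rw [co_comb_f _ F₂ (pa_bo 2 w 1 (by omega)),
        co_comb_f _ F₂ (pa_tp w 2 2 1 h (by omega))] at h2
      exact h2

end Pool.ALT
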