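import Pool.Agent.ALT.Mo.St

/-! ALT, block Mo: loops and types in terms of the graphs (proof by helper89 of `St_CT` of
helper37). -/

set_option autoImplicit false

namespace Pool.ALT

open LaurentPolynomial Pool.Agent.ARB Pool.Agent.Helper2

theorem ct_key (M : Model ℤ ((ℕ → Bool) → ℤ)) (hM : RMod M) (w : Word) (k : ℕ) (t : Bool)
    (hN : Nf w k t) (ψ : (ℕ → Bool) → ℤ) (d : ℕ → Bool) :
    runC M w ψ d = 2 ^ k * (if t = true then (if d 0 = d 2 then
      ψ (ins 0 true (dl 0 d)) + ψ (ins 0 false (dl 0 d)) else 0) else ψ d) := by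
  have h1 := hN M 0 2 ψ (by omega) (hM.supp 2 ψ)
  rw [sh_zero, hM.del] at h1
  have h2 := congrFun h1 d
  rw [h2]
  cases t with
  | false =>
    rw [if_neg (by decide), if_neg (by decide)]
    rfl
  | true =>
    rw [if_pos rfl, if_pos rfl]
    show 2 ^ k * (M.cup 0 (M.cap 0 ψ)) d = _
    rw [hM.cup, hM.cap]

theorem ct_compl {B : ℕ → Bool} {n : ℕ} {w : Word} {f : Loc n w → Bool} (h : Cp B n w f) :
    Cp B n w (fun x => !f x) := by
  constructor
  · intro x y hxy
    show (!f x) = !f y
    rw [h.1 x y hxy]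
  · intro k
    show (!f _) = !f _
    rw [h.2 k]

theorem ct_s1 : ∑ d : Fin 3 → Bool, (if d 0 = d 2 then (2 : ℤ) else 0) = 8 := by decide

theorem ct_s2 : ∑ _d : Fin 3 → Bool, (1 : ℤ) = 8 := by decide

theorem thm_CT (hRM : St_RM) (hTR : St_TR) (hCO : St_CO) : St_CT := by
  classical
  intro w h A k t hN
  obtain ⟨M, hM⟩ := hRM
  obtain ⟨co1, co2, co3⟩ := hCO w h A
  have key := ct_key M hM (jo (seq A) w) k t hN
  have tr : ∀ (ψ : (ℕ → Bool) → ℤ) (d : ℕ → Bool), Dep 2 ψ →
      ∃ S : Finset (Loc 2 w → Bool),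
        (∀ f, f ∈ S ↔ (Cp (seq A) 2 w f ∧ ∀ j ≤ 2, f (tp 2 w j) = d j)) ∧
        runC M (jo (seq A) w) ψ d = ∑ f ∈ S, ψ (fun j => f (bo 2 w j)) := by
    intro ψ d hd
    refine ⟨_, fun f => ?_, hTR M hM (seq A) w 2 2 ψ d h hd⟩
    rw [Finset.mem_filter]
    exact and_iff_right (Finset.mem_univ f)
  have hk : (0 : ℤ) < 2 ^ k := by positivity
  obtain ⟨ψ3, hψ3⟩ : ∃ ψ : (ℕ → Bool) → ℤ, ∀ c, ψ c = if c 1 = true then (1 : ℤ) else 0 :=
    ⟨fun c => if c 1 = true then (1 : ℤ) else 0, fun _ => rfl⟩
  obtain ⟨ψ2, hψ2⟩ : ∃ ψ : (ℕ → Bool) → ℤ, ∀ c, ψ c = if c 0 = c 2 then (0 : ℤ) else 1 :=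
    ⟨fun c => if c 0 = c 2 then (0 : ℤ) else 1, fun _ => rfl⟩
  obtain ⟨ψ1, hψ1⟩ : ∃ ψ : (ℕ → Bool) → ℤ, ∀ c, ψ c = 1 := ⟨fun _ => 1, fun _ => rfl⟩
  have dep3 : Dep 2 ψ3 := by
    intro c c' hc
    rw [hψ3, hψ3, hc 1 (by omega)]
  have dep2 : Dep 2 ψ2 := by
    intro c c' hc
    rw [hψ2, hψ2, hc 0 (by omega), hc 2 (by omega)]
  have dep1 : Dep 2 ψ1 := by
    intro c c' hc
    rw [hψ1, hψ1]
  have p3 : t = false → ∀ f, Cp (seq A) 2 w f → f (bo 2 w 1) = true → f (tp 2 w 1) = false →
      False := by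
    intro ht f hf hb htp
    obtain ⟨S, hS, h1⟩ := tr ψ3 (fun j => f (tp 2 w j)) dep3
    rw [key, ht, if_neg (by decide), hψ3, htp, if_neg (by decide), mul_zero] at h1
    have hnn : ∀ f' ∈ S, 0 ≤ ψ3 (fun j => f' (bo 2 w j)) := by
      intro f' _
      rw [hψ3]
      split_ifs <;> norm_num
    have h2 := (Finset.sum_eq_zero_iff_of_nonneg hnn).1 h1.symm f ((hS f).2 ⟨hf, fun _ _ => rfl⟩)
    rw [hψ3, hb, if_pos rfl] at h2
    exact one_ne_zero h2
  refine ⟨?_, ?_, ?_⟩
  · -- number of colourings
    have hcard : ((Finset.univ.filter fun f : Loc 2 w → Bool => Cp (seq A) 2 w f).card : ℤ) =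
        2 ^ k * 8 := by
      have h1 := Finset.card_eq_sum_card_fiberwise
        (f := fun f : Loc 2 w → Bool => fun j : Fin 3 => f (tp 2 w j.val))
        (s := Finset.univ.filter fun f : Loc 2 w → Bool => Cp (seq A) 2 w f)
        (t := (Finset.univ : Finset (Fin 3 → Bool))) (fun _ _ => Finset.mem_coe.2 (Finset.mem_univ _))
      rw [h1]
      push_cast
      have h2 : ∀ d : Fin 3 → Bool, (((Finset.univ.filter fun f : Loc 2 w → Bool =>
          Cp (seq A) 2 w f).filter fun f => (fun j : Fin 3 => f (tp 2 w j.val)) = d).card : ℤ) =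
          2 ^ k * (if t = true then (if d 0 = d 2 then 2 else 0) else 1) := by
        intro d
        obtain ⟨S, hS, h3⟩ := tr ψ1 (fun j => d (Fin.ofNat 3 j)) dep1
        rw [key, hψ1, hψ1, hψ1] at h3
        have h4 : (Finset.univ.filter fun f : Loc 2 w → Bool => Cp (seq A) 2 w f).filter
            (fun f => (fun j : Fin 3 => f (tp 2 w j.val)) = d) = S := by
          ext f
          rw [Finset.mem_filter, Finset.mem_filter, hS]
          constructor
          · rintro ⟨⟨_, hf⟩, hd⟩
            refine ⟨hf, ?_⟩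
            intro j hj
            rw [← hd]
            show f (tp 2 w j) = f (tp 2 w (Fin.ofNat 3 j).val)
            rw [Fin.val_ofNat, Nat.mod_eq_of_lt (show j < 3 by omega)]
          · rintro ⟨hf, hd⟩
            refine ⟨⟨Finset.mem_univ _, hf⟩, ?_⟩
            funext j
            rw [hd j.val (by omega)]
            congr 1
            apply Fin.ext
            rw [Fin.val_ofNat, Nat.mod_eq_of_lt j.isLt]
        rw [h4]
        have h5 : ∑ f ∈ S, ψ1 (fun j => f (bo 2 w j)) = (S.card : ℤ) := by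
          rw [Finset.sum_congr rfl (fun f _ => hψ1 _), Finset.sum_const]
          show (S.card : ℕ) • (1 : ℤ) = _
          rw [nsmul_eq_mul, mul_one]
        rw [h5] at h3
        rw [← h3]
        rfl
      rw [Finset.sum_congr rfl (fun d _ => h2 d), ← Finset.mul_sum]
      congr 1
      cases t with
      | false =>
        simp only [if_neg (show ¬ false = true by decide)]
        exact ct_s2
      | true =>
        simp only [if_true]
        exact ct_s1
    rw [co1] at hcard
    have h5 : (2 : ℕ) ^ (nc ((gE w h).sp ⊥ A) + nc ((gO w h).sp ⊥ (Finset.univ \ A))) =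
        2 ^ (k + 3) := by
      have h6 : ((2 ^ (nc ((gE w h).sp ⊥ A) + nc ((gO w h).sp ⊥ (Finset.univ \ A))) : ℕ) : ℤ) =
          ((2 ^ (k + 3) : ℕ) : ℤ) := by
        rw [hcard]
        push_cast
        rw [pow_add]
        norm_num
      exact_mod_cast h6
    exact Nat.pow_right_injective (le_refl 2) h5
  · rw [co2]
    constructor
    · intro hall
      by_contra ht
      obtain ⟨S, hS, h1⟩ := tr ψ2 (fun j => decide (j = 0)) dep2
      have h3 : ψ2 (fun j => decide (j = 0)) = 1 := by
        rw [hψ2]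
        exact if_neg (by decide)
      have h2 : ∑ f ∈ S, ψ2 (fun j => f (bo 2 w j)) = 0 := by
        apply Finset.sum_eq_zero
        intro f hf
        rw [hψ2]
        exact if_pos (hall f ((hS f).1 hf).1)
      rw [key, if_neg ht, h2, h3, mul_one] at h1
      omega
    · intro ht f hf
      obtain ⟨S, hS, h1⟩ := tr ψ2 (fun j => f (tp 2 w j)) dep2
      have h3 : ∀ (b : Bool) (c : ℕ → Bool), ψ2 (ins 0 b c) = 0 := by
        intro b c
        rw [hψ2]
        exact if_pos rfl
      rw [key, if_pos ht, h3, h3, add_zero, ite_self, mul_zero] at h1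
      have hnn : ∀ f' ∈ S, 0 ≤ ψ2 (fun j => f' (bo 2 w j)) := by
        intro f' _
        rw [hψ2]
        split_ifs <;> norm_num
      have h2 := (Finset.sum_eq_zero_iff_of_nonneg hnn).1 h1.symm f
        ((hS f).2 ⟨hf, fun _ _ => rfl⟩)
      by_contra hne
      rw [hψ2, if_neg hne] at h2
      exact one_ne_zero h2
  · rw [co3]
    constructor
    · intro hall
      by_contra ht
      have ht' : t = true := by
        cases t
        · exact absurd rfl ht
        · rfl
      obtain ⟨S, hS, h1⟩ := tr ψ3 (fun _ => false) dep3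
      have h2 : ∑ f ∈ S, ψ3 (fun j => f (bo 2 w j)) = 0 := by
        apply Finset.sum_eq_zero
        intro f hf
        obtain ⟨hf1, hf2⟩ := (hS f).1 hf
        rw [hψ3, hall f hf1, hf2 1 (by omega)]
        exact if_neg (by decide)
      have h3 : ψ3 (ins 0 true (dl 0 fun _ => false)) = 1 := by
        rw [hψ3]
        exact if_pos rfl
      have h4 : ψ3 (ins 0 false (dl 0 fun _ => false)) = 0 := by
        rw [hψ3]
        exact if_neg (by decide)
      rw [key, if_pos ht', if_pos rfl, h2, h3, h4, add_zero, mul_one] at h1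
      omega
    · intro ht f hf
      by_contra hne
      cases hb : f (bo 2 w 1) with
      | true =>
        cases htp : f (tp 2 w 1) with
        | true =>
          apply hne
          rw [hb, htp]
        | false => exact p3 ht f hf hb htp
      | false =>
        cases htp : f (tp 2 w 1) with
        | true =>
          apply p3 ht _ (ct_compl hf)
          · show (!f (bo 2 w 1)) = true
            rw [hb]
            rfl
          · show (!f (tp 2 w 1)) = false
            rw [htp]
            rfl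
        | false =>
          apply hne
          rw [hb, htp]

end Pool.ALT
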