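import Pool.Agent.ALT.Mo.St

/-! # ALT, block Mo [DU]: duality of the two graphs -/

set_option autoImplicit false

namespace Pool.ALT

open LaurentPolynomial Pool.Agent.ARB Pool.Agent.Helper2

private theorem du_kt (hJO : St_JO) (hNF : St_NF) (hCT : St_CT) (w : Word) (h : Ok w 2 2)
    (A : Finset (Fin (nX w))) : ∃ (k : ℕ) (t : Bool), Nf (jo (seq A) w) k t ∧
      nc ((gE w h).sp ⊥ A) + nc ((gO w h).sp ⊥ (Finset.univ \ A) ⊔ (gO w h).ab) + t.toNat =
        k + 3 := by
  obtain ⟨h1, h2⟩ := hJO.1 (seq A) w 2 2 h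
  obtain ⟨k, t, hkt⟩ := hNF _ h1 h2
  refine ⟨k, t, hkt, ?_⟩
  obtain ⟨c1, -, c3⟩ := hCT w h A k t hkt
  cases t with
  | false =>
    have h3 : (gO w h).sp ⊥ (Finset.univ \ A) (gO w h).a (gO w h).b := c3.2 rfl
    have h4 : (gO w h).sp ⊥ (Finset.univ \ A) ⊔ (gO w h).ab =
        (gO w h).sp ⊥ (Finset.univ \ A) := sup_pr_of _ h3
    rw [h4]
    show _ + _ + 0 = _
    omega
  | true =>
    have h3 : ¬ (gO w h).sp ⊥ (Finset.univ \ A) (gO w h).a (gO w h).b := by
      intro h5
      exact absurd (c3.1 h5) (by decide)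
    have h4 : nc ((gO w h).sp ⊥ (Finset.univ \ A) ⊔ (gO w h).ab) + 1 =
        nc ((gO w h).sp ⊥ (Finset.univ \ A)) := nc_sup_pr h3
    show _ + _ + 1 = _
    omega

theorem thm_DU (hJO : St_JO) (hNF : St_NF) (hCT : St_CT) (hPR : St_PR) : St_DU := by
  intro w h A
  induction A using Finset.induction_on with
  | empty =>
    rw [Finset.sdiff_empty, Gr.sp_empty, nc_bot, Nat.card_eq_fintype_card, Finset.card_empty]
    omega
  | insert e A he ih =>
    obtain ⟨k, t, hk, hkt⟩ := du_kt hJO hNF hCT w h A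
    obtain ⟨k', t', hk', hkt'⟩ := du_kt hJO hNF hCT w h (insert e A)
    have hp := hPR w h A e he k k' t t' hk hk'
    have e1 : (gE w h).sp ⊥ (insert e A) = (gE w h).sp ⊥ A ⊔ (gE w h).pe e :=
      (gE w h).sp_insert ⊥ e A
    have n1 : nc ((gE w h).sp ⊥ (insert e A)) ≤ nc ((gE w h).sp ⊥ A) := by
      rw [e1]
      exact nc_anti le_sup_left
    have n2 : nc ((gE w h).sp ⊥ A) ≤ nc ((gE w h).sp ⊥ (insert e A)) + 1 := by
      rw [e1]
      exact nc_sup_pr_le _ _ _
    have e2 : (Finset.univ \ A : Finset (Fin (nX w))) = insert e (Finset.univ \ insert e A) := by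
      ext x
      simp only [Finset.mem_sdiff, Finset.mem_univ, true_and, Finset.mem_insert, not_or]
      constructor
      · intro hx
        by_cases hxe : x = e
        · exact Or.inl hxe
        · exact Or.inr ⟨hxe, hx⟩
      · rintro (hx | hx)
        · rw [hx]
          exact he
        · exact hx.2
    have e3 : (gO w h).sp ⊥ (Finset.univ \ A) ⊔ (gO w h).ab =
        ((gO w h).sp ⊥ (Finset.univ \ insert e A) ⊔ (gO w h).ab) ⊔ (gO w h).pe e := by
      rw [e2, Gr.sp_insert, sup_right_comm]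
    have n3 : nc ((gO w h).sp ⊥ (Finset.univ \ A) ⊔ (gO w h).ab) ≤
        nc ((gO w h).sp ⊥ (Finset.univ \ insert e A) ⊔ (gO w h).ab) := by
      rw [e3]
      exact nc_anti le_sup_left
    have n4 : nc ((gO w h).sp ⊥ (Finset.univ \ insert e A) ⊔ (gO w h).ab) ≤
        nc ((gO w h).sp ⊥ (Finset.univ \ A) ⊔ (gO w h).ab) + 1 := by
      rw [e3]
      exact nc_sup_pr_le _ _ _
    rw [Finset.card_insert_of_notMem he]
    omega

end Pool.ALT
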