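import Pool.Agent.ALT.Mo.St

/-! ALT, block Mo: expansion of the operator of a word in states (proof by helper89 of `St_HE` of
helper37). -/

set_option autoImplicit false

namespace Pool.ALT

open LaurentPolynomial Pool.Agent.ARB Pool.Agent.Helper2

theorem he_sum {n : ℕ} {G : Type} [AddCommMonoid G] (F : Finset (Fin (n + 1)) → G) :
    ∑ A, F A = ∑ A' : Finset (Fin n), (F (A'.map (Fin.succEmb n)) +
      F (insert 0 (A'.map (Fin.succEmb n)))) := by
  classical
  have h0 : ∀ A' : Finset (Fin n), (0 : Fin (n + 1)) ∉ A'.map (Fin.succEmb n) := by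
    intro A' h
    obtain ⟨k, -, hk⟩ := Finset.mem_map.1 h
    exact Fin.succ_ne_zero k hk
  have hinj : Function.Injective fun A' : Finset (Fin n) => A'.map (Fin.succEmb n) :=
    Finset.map_injective _
  have hu : (Finset.univ : Finset (Finset (Fin (n + 1)))) =
      Finset.univ.image (fun A' : Finset (Fin n) => A'.map (Fin.succEmb n)) ∪
      Finset.univ.image (fun A' : Finset (Fin n) => insert 0 (A'.map (Fin.succEmb n))) := by
    symm
    rw [Finset.eq_univ_iff_forall]
    intro A
    have hA : ∀ k : Fin n, k ∈ Finset.univ.filter (fun k : Fin n => k.succ ∈ A) ↔ k.succ ∈ A := by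
      intro k
      rw [Finset.mem_filter]
      exact and_iff_right (Finset.mem_univ k)
    rw [Finset.mem_union, Finset.mem_image, Finset.mem_image]
    by_cases h : (0 : Fin (n + 1)) ∈ A
    · right
      refine ⟨Finset.univ.filter fun k : Fin n => k.succ ∈ A, Finset.mem_univ _, ?_⟩
      ext x
      rw [Finset.mem_insert, Finset.mem_map]
      refine Fin.cases ?_ (fun k => ?_) x
      · exact ⟨fun _ => h, fun _ => Or.inl rfl⟩
      · constructor
        · rintro (h1 | ⟨k', hk', h1⟩)
          · exact absurd h1 (Fin.succ_ne_zero k)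
          · have h2 : k' = k := Fin.succ_injective n h1
            rw [h2] at hk'
            exact (hA k).1 hk'
        · intro h1
          exact Or.inr ⟨k, (hA k).2 h1, rfl⟩
    · left
      refine ⟨Finset.univ.filter fun k : Fin n => k.succ ∈ A, Finset.mem_univ _, ?_⟩
      ext x
      rw [Finset.mem_map]
      refine Fin.cases ?_ (fun k => ?_) x
      · constructor
        · rintro ⟨k', -, h1⟩
          exact absurd h1 (Fin.succ_ne_zero k')
        · intro h1
          exact absurd h1 h
      · constructor
        · rintro ⟨k', hk', h1⟩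
          have h2 : k' = k := Fin.succ_injective n h1
          rw [h2] at hk'
          exact (hA k).1 hk'
        · intro h1
          exact ⟨k, (hA k).2 h1, rfl⟩
  have hd : Disjoint (Finset.univ.image (fun A' : Finset (Fin n) => A'.map (Fin.succEmb n)))
      (Finset.univ.image (fun A' : Finset (Fin n) => insert 0 (A'.map (Fin.succEmb n)))) := by
    rw [Finset.disjoint_left]
    intro A h1 h2
    obtain ⟨A1, -, e1⟩ := Finset.mem_image.1 h1
    obtain ⟨A2, -, e2⟩ := Finset.mem_image.1 h2
    apply h0 A1
    rw [e1, ← e2]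
    exact Finset.mem_insert_self _ _
  rw [hu, Finset.sum_union hd, Finset.sum_image, Finset.sum_image, ← Finset.sum_add_distrib]
  · intro A1 _ A2 _ h
    have h1 : (insert 0 (A1.map (Fin.succEmb n))).erase 0 =
        (insert 0 (A2.map (Fin.succEmb n))).erase 0 := congrArg (fun A => Finset.erase A 0) h
    rw [Finset.erase_insert (h0 A1), Finset.erase_insert (h0 A2)] at h1
    exact hinj h1
  · intro A1 _ A2 _ h
    exact hinj h

theorem he_seq {n : ℕ} (A : Finset (Fin n)) (k : ℕ) (hk : k < n) :
    seq A k = decide ((⟨k, hk⟩ : Fin n) ∈ A) := by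
  unfold seq
  by_cases h : (⟨k, hk⟩ : Fin n) ∈ A
  · rw [decide_eq_true h]
    exact decide_eq_true ⟨hk, h⟩
  · rw [decide_eq_false h]
    apply decide_eq_false
    rintro ⟨_, h'⟩
    exact h h'

theorem he_seq' {n : ℕ} (A : Finset (Fin n)) (k : ℕ) (hk : n ≤ k) : seq A k = false := by
  unfold seq
  apply decide_eq_false
  rintro ⟨h, -⟩
  omega

theorem he_seq0 {n : ℕ} (A : Finset (Fin n)) : seq (A.map (Fin.succEmb n)) 0 = false := by
  rw [he_seq _ 0 (Nat.succ_pos n)]
  apply decide_eq_false
  intro h
  obtain ⟨k, -, hk⟩ := Finset.mem_map.1 h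
  exact Fin.succ_ne_zero k hk

theorem he_seq1 {n : ℕ} (A : Finset (Fin n)) :
    seq (insert 0 (A.map (Fin.succEmb n))) 0 = true := by
  rw [he_seq _ 0 (Nat.succ_pos n)]
  apply decide_eq_true
  exact Finset.mem_insert_self _ _

theorem he_seqs {n : ℕ} (A : Finset (Fin n)) :
    (fun k => seq (A.map (Fin.succEmb n)) (k + 1)) = seq A := by
  funext k
  by_cases hk : k < n
  · rw [he_seq A k hk, he_seq _ (k + 1) (by omega)]
    apply decide_eq_decide.2
    rw [Finset.mem_map]
    constructor
    · rintro ⟨k', hk', h1⟩
      have h2 : k' = ⟨k, hk⟩ := Fin.succ_injective n h1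
      rw [← h2]
      exact hk'
    · intro h
      exact ⟨⟨k, hk⟩, h, rfl⟩
  · rw [he_seq' A k (by omega), he_seq' _ (k + 1) (by omega)]

theorem he_seqi {n : ℕ} (A : Finset (Fin n)) :
    (fun k => seq (insert 0 (A.map (Fin.succEmb n))) (k + 1)) = seq A := by
  funext k
  by_cases hk : k < n
  · rw [he_seq A k hk, he_seq _ (k + 1) (by omega)]
    apply decide_eq_decide.2
    rw [Finset.mem_insert, Finset.mem_map]
    constructor
    · rintro (h1 | ⟨k', hk', h1⟩)
      · exact absurd h1 (Fin.succ_ne_zero ⟨k, hk⟩)
      · have h2 : k' = ⟨k, hk⟩ := Fin.succ_injective n h1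
        rw [← h2]
        exact hk'
    · intro h
      exact Or.inr ⟨⟨k, hk⟩, h, rfl⟩
  · rw [he_seq' A k (by omega), he_seq' _ (k + 1) (by omega)]

theorem he_main {V : Type} [AddCommGroup V] [Module LP V] (M : Model LP V) (e : Bool) (j : ℕ) :
    ∀ (w : Word) (x : V), (∀ (p : Bool) (i : ℕ), pX i p ∈ w → (p = e ↔ i % 2 = 0)) →
      runW M (sh j w) x = ∑ A : Finset (Fin (nX w)),
        (T (sg e * ((nX w : ℤ) - 2 * A.card)) : LP) • runC M (sh j (jo (seq A) w)) x
  | [], x, _ => by
      show x = ∑ A : Finset (Fin 0),
        (T (sg e * (((0 : ℕ) : ℤ) - 2 * A.card)) : LP) • runC M (sh j (jo (seq A) [])) x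
      rw [Fintype.sum_eq_single (∅ : Finset (Fin 0))]
      · rw [Finset.card_empty]
        have h1 : sg e * (((0 : ℕ) : ℤ) - 2 * ((0 : ℕ) : ℤ)) = 0 := by
          push_cast
          ring
        rw [h1, T_zero, one_smul]
        rfl
      · intro A hA
        exact absurd (Finset.eq_empty_of_isEmpty A) hA
  | ⟨.U, i⟩ :: w, x, h => by
      have h1 := he_main M e j w (M.cup (i + j) x) fun p i' hp => h p i' (List.mem_cons_of_mem _ hp)
      show runW M (sh j w) (M.cup (i + j) x) = _
      rw [h1]
      rfl
  | ⟨.N, i⟩ :: w, x, h => by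
      have h1 := he_main M e j w (M.cap (i + j) x) fun p i' hp => h p i' (List.mem_cons_of_mem _ hp)
      show runW M (sh j w) (M.cap (i + j) x) = _
      rw [h1]
      rfl
  | ⟨.X p, i⟩ :: w, x, h => by
      have h1 := he_main M e j w x fun p i' hp => h p i' (List.mem_cons_of_mem _ hp)
      have h2 := he_main M e j w (M.cup (i + j) (M.cap (i + j) x))
        fun p i' hp => h p i' (List.mem_cons_of_mem _ hp)
      have hpe : p = e ↔ i % 2 = 0 := h p i List.mem_cons_self
      have hl : runW M (sh j (⟨.X p, i⟩ :: w)) x =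
          (T (if p then 1 else -1) : LP) • runW M (sh j w) x +
          (T (if p then -1 else 1) : LP) • runW M (sh j w) (M.cup (i + j) (M.cap (i + j) x)) := by
        show runW M (sh j w) ((T (if p then 1 else -1) : LP) • x +
          (T (if p then -1 else 1) : LP) • M.cup (i + j) (M.cap (i + j) x)) = _
        rw [map_add, map_smul, map_smul]
      rw [hl, h1, h2]
      show _ = ∑ A : Finset (Fin (nX w + 1)),
        (T (sg e * (((nX w + 1 : ℕ) : ℤ) - 2 * A.card)) : LP) •
          runC M (sh j (jo (seq A) (⟨.X p, i⟩ :: w))) x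
      rw [he_sum, Finset.smul_sum, Finset.smul_sum, ← Finset.sum_add_distrib]
      apply Finset.sum_congr rfl
      intro A _
      have hc0 : (A.map (Fin.succEmb (nX w))).card = A.card := Finset.card_map _
      have hc1 : (insert 0 (A.map (Fin.succEmb (nX w)))).card = A.card + 1 := by
        rw [Finset.card_insert_of_notMem, Finset.card_map]
        intro h3
        obtain ⟨k, -, hk⟩ := Finset.mem_map.1 h3
        exact Fin.succ_ne_zero k hk
      have hj0 : jo (seq (A.map (Fin.succEmb (nX w)))) (⟨.X p, i⟩ :: w) =
          if false = decide (i % 2 = 0) then pN i :: pU i :: jo (seq A) w else jo (seq A) w := by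
        show (if seq (A.map (Fin.succEmb (nX w))) 0 = decide (i % 2 = 0) then
          pN i :: pU i :: jo (fun k => seq (A.map (Fin.succEmb (nX w))) (k + 1)) w
          else jo (fun k => seq (A.map (Fin.succEmb (nX w))) (k + 1)) w) = _
        rw [he_seq0, he_seqs]
      have hj1 : jo (seq (insert 0 (A.map (Fin.succEmb (nX w))))) (⟨.X p, i⟩ :: w) =
          if true = decide (i % 2 = 0) then pN i :: pU i :: jo (seq A) w else jo (seq A) w := by
        show (if seq (insert 0 (A.map (Fin.succEmb (nX w)))) 0 = decide (i % 2 = 0) then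
          pN i :: pU i :: jo (fun k => seq (insert 0 (A.map (Fin.succEmb (nX w)))) (k + 1)) w
          else jo (fun k => seq (insert 0 (A.map (Fin.succEmb (nX w)))) (k + 1)) w) = _
        rw [he_seq1, he_seqi]
      rw [hj0, hj1, hc0, hc1]
      have hw0 : (T (sg e * (((nX w + 1 : ℕ) : ℤ) - 2 * (A.card : ℤ))) : LP) =
          T (sg e) * T (sg e * ((nX w : ℤ) - 2 * A.card)) := by
        rw [← T_add]
        congr 1
        push_cast
        ring
      have hw1 : (T (sg e * (((nX w + 1 : ℕ) : ℤ) - 2 * ((A.card + 1 : ℕ) : ℤ))) : LP) =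
          T (-sg e) * T (sg e * ((nX w : ℤ) - 2 * A.card)) := by
        rw [← T_add]
        congr 1
        push_cast
        ring
      rw [hw0, hw1, smul_smul, smul_smul]
      have hH : runC M (sh j (pN i :: pU i :: jo (seq A) w)) x =
          runC M (sh j (jo (seq A) w)) (M.cup (i + j) (M.cap (i + j) x)) := rfl
      by_cases hi : i % 2 = 0
      · have hd : decide (i % 2 = 0) = true := decide_eq_true hi
        have f1 : (if false = true then pN i :: pU i :: jo (seq A) w else jo (seq A) w) =
            jo (seq A) w := if_neg (by decide)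
        have f2 : (if true = true then pN i :: pU i :: jo (seq A) w else jo (seq A) w) =
            pN i :: pU i :: jo (seq A) w := if_pos rfl
        rw [hd, f1, f2, hH]
        have hp : p = e := hpe.2 hi
        rw [hp]
        cases e <;> rfl
      · have hd : decide (i % 2 = 0) = false := decide_eq_false hi
        have f1 : (if true = false then pN i :: pU i :: jo (seq A) w else jo (seq A) w) =
            jo (seq A) w := if_neg (by decide)
        have f2 : (if false = false then pN i :: pU i :: jo (seq A) w else jo (seq A) w) =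
            pN i :: pU i :: jo (seq A) w := if_pos rfl
        rw [hd, f1, f2, hH]
        have hp : p = !e := by
          cases p <;> cases e
          · exact absurd (hpe.1 rfl) hi
          · rfl
          · rfl
          · exact absurd (hpe.1 rfl) hi
        rw [hp, add_comm]
        cases e <;> rfl

theorem thm_HE : St_HE := by
  intro V _ _ M _ e w j n m x _ h _
  exact he_main M e j w x h

end Pool.ALT
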