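import Pool.Agent.ALT.Mo.St

/-! # ALT, block Mo: the bracket pair from the states of an alternating word -/

set_option autoImplicit false

namespace Pool.ALT

open LaurentPolynomial Pool.Agent.ARB Pool.Agent.Helper2

open Classical in
theorem thm_HP (h : St_HE) : St_HP := by
  intro e w k t hw ha hN V _ _ M hM j n x hj hx
  obtain ⟨r, rfl⟩ : ∃ r, n = j + (2 + r) := ⟨n - j - 2, by omega⟩
  rw [h V M hM e w j (2 + r) (2 + r) x (hw.add r) ha hx]
  have h1 : ∀ A : Finset (Fin (nX w)),
      (T (sg e * ((nX w : ℤ) - 2 * A.card)) : LP) • runC M (sh j (jo (seq A) w)) x =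
        (T (sg e * ((nX w : ℤ) - 2 * A.card)) * loopVal ^ k A) •
          (if t A = true then M.cup j (M.cap j x) else x) := by
    intro A
    rw [hN A M j (j + (2 + r)) x hj hx, hM.del, mul_smul]
  rw [Finset.sum_congr rfl fun A _ => h1 A,
    ← Finset.sum_filter_add_sum_filter_not Finset.univ (fun A => t A = true),
    Finset.sum_smul, Finset.sum_smul, add_comm]
  congr 1
  · refine Finset.sum_congr rfl fun A hA => ?_
    rw [if_neg (Finset.mem_filter.1 hA).2]
  · refine Finset.sum_congr rfl fun A hA => ?_
    rw [if_pos (Finset.mem_filter.1 hA).2]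

end Pool.ALT
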