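import Pool.Agent.ALT.Mo.St

/-! ALT, block Mo: leaf conditions in terms of the graphs (proof by helper89 of `St_LF` of helper37). -/

set_option autoImplicit false

namespace Pool.ALT

open LaurentPolynomial Pool.Agent.ARB Pool.Agent.Helper2

theorem lf_joined {V : Type} [Finite V] {σ : Setoid V} (h : nc σ = 1) (x y : V) : σ x y := by
  have hf : Finite (Quotient σ) := Quotient.finite σ
  unfold nc at h
  obtain ⟨h1, -⟩ := Nat.card_eq_one_iff_unique.1 h
  exact Quotient.exact (Subsingleton.elim (Quotient.mk σ x) (Quotient.mk σ y))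

theorem lf_gen {V W : Type} [Fintype V] [Fintype W] {n : ℕ} (g : Gr V (Fin n)) (h : Gr W (Fin n))
    (lN lD t : Finset (Fin n) → ℕ) (ht : ∀ A, t A ≤ 1)
    (h1 : ∀ A, g.sp ⊥ A g.a g.b ↔ t A = 1)
    (h2 : ∀ A, h.sp ⊥ (Finset.univ \ A) h.a h.b ↔ t A = 0)
    (h3 : ∀ A, lN A + 1 = nc (g.sp ⊥ A) + nc (h.sp ⊥ (Finset.univ \ A) ⊔ h.ab))
    (h4 : ∀ A, lD A + 2 = nc (g.sp ⊥ A) + nc (h.sp ⊥ (Finset.univ \ A) ⊔ h.ab) + 2 * t A)
    (hD : ∀ A, nc (h.sp ⊥ (Finset.univ \ A) ⊔ h.ab) + Fintype.card V =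
      nc (g.sp ⊥ A) + A.card + nc (h.sp ⊥ Finset.univ ⊔ h.ab))
    (hn : 2 ≤ n)
    (p1 : ∀ A : Finset (Fin n), A.Nonempty → A ≠ Finset.univ → lN A + lN (Finset.univ \ A) ≤ n)
    (p2 : ∀ A : Finset (Fin n), A.Nonempty → A ≠ Finset.univ → lD A + lD (Finset.univ \ A) ≤ n) :
    Lg g h := by
  have hVne : Nonempty V := ⟨g.a⟩
  have hWne : Nonempty W := ⟨h.a⟩
  have hcard : ∀ A : Finset (Fin n), A.card + (Finset.univ \ A).card = n := by
    intro A
    have h5 := Finset.card_sdiff_add_card_eq_card (Finset.subset_univ A)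
    rw [Finset.card_univ, Fintype.card_fin] at h5
    omega
  obtain ⟨κ, hκ⟩ : ∃ κ, κ = nc (h.sp ⊥ Finset.univ ⊔ h.ab) := ⟨_, rfl⟩
  have q1 : ∀ A : Finset (Fin n), A.Nonempty → A ≠ Finset.univ →
      nc (g.sp ⊥ A) + nc (g.sp ⊥ (Finset.univ \ A)) + κ ≤ Fintype.card V + 1 := by
    intro A hA hA'
    have e1 := p1 A hA hA'
    have e2 := h3 A
    have e3 := h3 (Finset.univ \ A)
    have e4 := hD A
    have e5 := hD (Finset.univ \ A)
    have e6 := hcard A
    omega
  have q2 : ∀ A : Finset (Fin n), A.Nonempty → A ≠ Finset.univ →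
      nc (g.sp ⊥ A) + nc (g.sp ⊥ (Finset.univ \ A)) + t A + t (Finset.univ \ A) + κ ≤
        Fintype.card V + 2 := by
    intro A hA hA'
    have e1 := p2 A hA hA'
    have e2 := h4 A
    have e3 := h4 (Finset.univ \ A)
    have e4 := hD A
    have e5 := hD (Finset.univ \ A)
    have e6 := hcard A
    omega
  have hbot : nc (⊥ : Setoid V) = Fintype.card V := by
    rw [nc_bot, Nat.card_eq_fintype_card]
  -- one edge
  obtain ⟨e0, he0⟩ : ∃ e0 : Fin n, e0 = ⟨0, by omega⟩ := ⟨_, rfl⟩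
  have s1 : ({e0} : Finset (Fin n)).Nonempty := Finset.singleton_nonempty e0
  have s2 : ({e0} : Finset (Fin n)) ≠ Finset.univ := by
    intro h5
    have h6 := congrArg Finset.card h5
    rw [Finset.card_singleton, Finset.card_univ, Fintype.card_fin] at h6
    omega
  have s3 : Fintype.card V ≤ nc (g.sp ⊥ {e0}) + 1 := by
    have h5 := g.nc_le_add_card ⊥ {e0}
    rw [hbot, Finset.card_singleton] at h5
    exact h5
  have s4 : 0 < nc (g.sp ⊥ (Finset.univ \ {e0})) := nc_pos _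
  have hκ1 : κ = 1 := by
    have h5 := q1 {e0} s1 s2
    have h6 : 0 < κ := by
      rw [hκ]
      exact nc_pos _
    omega
  have hcon : nc (g.sp ⊥ Finset.univ) = 1 := by
    have h5 := q1 {e0} s1 s2
    have h6 : 0 < nc (g.sp ⊥ Finset.univ) := nc_pos _
    have h7 : nc (g.sp ⊥ Finset.univ) ≤ nc (g.sp ⊥ (Finset.univ \ {e0})) :=
      nc_anti (g.sp_mono le_rfl (Finset.subset_univ _))
    omega
  have hab : g.a ≠ g.b := by
    intro hab
    have h5 : ∀ A, t A = 1 := by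
      intro A
      apply (h1 A).1
      rw [hab]
    have h6 := q2 {e0} s1 s2
    rw [h5, h5] at h6
    omega
  have hsep : ∀ A : Finset (Fin n), g.sp ⊥ A g.a g.b ↔
      ¬ h.sp ⊥ (Finset.univ \ A) h.a h.b := by
    intro A
    rw [h1 A, h2 A]
    have h5 := ht A
    omega
  have hcd : h.a ≠ h.b := by
    intro hcd
    apply (hsep Finset.univ).1 (lf_joined hcon _ _)
    rw [hcd]
  have ht0 : t ∅ = 0 := by
    by_contra h5
    have h6 : t ∅ = 1 := by
      have := ht ∅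
      omega
    have h7 := (h1 ∅).2 h6
    rw [Gr.sp_empty] at h7
    exact hab h7
  have hcon' : nc (h.sp ⊥ Finset.univ) = 1 := by
    have h5 := (h2 ∅).2 ht0
    rw [Finset.sdiff_empty] at h5
    have h6 : h.sp ⊥ Finset.univ ⊔ h.ab = h.sp ⊥ Finset.univ := sup_pr_of _ h5
    rw [h6] at hκ
    omega
  refine ⟨⟨hab, hcd, hcon, hcon', ?_, hsep⟩, ?_, ?_, ?_⟩
  · intro A
    have h5 := hD A
    rw [← hκ, hκ1] at h5
    exact h5
  · rw [Fintype.card_fin]
    exact hn
  · intro A hA hA'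
    have h5 := q1 A hA hA'
    omega
  · intro A hA hA'
    have h5 := q2 A hA hA'
    have h6 : ∀ B : Finset (Fin n), nc (g.sp ⊥ B) + t B = nc (g.sp ⊥ B ⊔ g.ab) + 1 := by
      intro B
      by_cases hB : g.sp ⊥ B g.a g.b
      · have h7 : g.sp ⊥ B ⊔ g.ab = g.sp ⊥ B := sup_pr_of _ hB
        rw [h7, (h1 B).1 hB]
      · have h7 : nc (g.sp ⊥ B ⊔ g.ab) + 1 = nc (g.sp ⊥ B) := nc_sup_pr hB
        have h8 : t B ≠ 1 := fun h9 => hB ((h1 B).2 h9)
        have h9 := ht B
        omega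
    have h7 := h6 A
    have h8 := h6 (Finset.univ \ A)
    omega

theorem lf_seq {n : ℕ} (A : Finset (Fin n)) (k : ℕ) (hk : k < n) :
    seq A k = decide ((⟨k, hk⟩ : Fin n) ∈ A) := by
  unfold seq
  by_cases h : (⟨k, hk⟩ : Fin n) ∈ A
  · rw [decide_eq_true h]
    exact decide_eq_true ⟨hk, h⟩
  · rw [decide_eq_false h]
    apply decide_eq_false
    rintro ⟨_, h'⟩
    exact h h'

theorem thm_LF (hJO : St_JO) (hSJ : St_SJ) (hNF : St_NF) (hCT : St_CT) (hDU : St_DU)
    (hLO : St_LO) : St_LF := by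
  intro w hw
  obtain ⟨jo1, jo2⟩ := hJO
  obtain ⟨e, he⟩ := hw.alt
  have hex : ∀ A : Finset (Fin (nX w)), ∃ (k : ℕ) (t : Bool), Nf (jo (seq A) w) k t := by
    intro A
    obtain ⟨g1, g2⟩ := jo1 (seq A) w 2 2 hw.ok
    exact hNF _ g1 g2
  choose k t hkt using hex
  have hst : ∀ A : Finset (Fin (nX w)), state (fun k => xor (seq A k) e) w = jo (seq A) w := by
    intro A
    rw [hSJ e w _ he]
    congr 1
    funext k
    show xor (xor (seq A k) e) e = seq A k
    rw [Bool.xor_assoc, Bool.xor_self, Bool.xor_false]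
  have hst' : ∀ A : Finset (Fin (nX w)), state (fun k => !(xor (seq A k) e)) w =
      jo (seq (Finset.univ \ A)) w := by
    intro A
    rw [hSJ e w _ he]
    apply jo2
    intro k hk
    rw [lf_seq _ k hk, lf_seq _ k hk]
    have h1 : decide ((⟨k, hk⟩ : Fin (nX w)) ∈ Finset.univ \ A) =
        !decide ((⟨k, hk⟩ : Fin (nX w)) ∈ A) := by
      by_cases h : (⟨k, hk⟩ : Fin (nX w)) ∈ A
      · simp [h]
      · simp [h]
    rw [h1]
    cases e <;> cases decide ((⟨k, hk⟩ : Fin (nX w)) ∈ A) <;> rfl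
  have hval : ∀ A : Finset (Fin (nX w)), A.Nonempty → A ≠ Finset.univ →
      (∃ k < nX w, (xor (seq A k) e) = true) ∧ ∃ k < nX w, (xor (seq A k) e) = false := by
    intro A hA hA'
    obtain ⟨⟨x, hx⟩, hxA⟩ := hA
    obtain ⟨⟨y, hy⟩, hyA⟩ : ∃ y : Fin (nX w), y ∉ A := by
      by_contra hcon
      apply hA'
      rw [Finset.eq_univ_iff_forall]
      intro y
      by_contra hy
      exact hcon ⟨y, hy⟩
    have hx1 : seq A x = true := by
      rw [lf_seq A x hx]
      exact decide_eq_true hxA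
    have hy1 : seq A y = false := by
      rw [lf_seq A y hy]
      exact decide_eq_false hyA
    cases e with
    | false =>
      refine ⟨⟨x, hx, ?_⟩, y, hy, ?_⟩
      · rw [hx1]
        rfl
      · rw [hy1]
        rfl
    | true =>
      refine ⟨⟨y, hy, ?_⟩, x, hx, ?_⟩
      · rw [hy1]
        rfl
      · rw [hx1]
        rfl
  apply lf_gen (gE w hw.ok) (gO w hw.ok) (fun A => loops (NW (jo (seq A) w)))
    (fun A => loops (DW (jo (seq A) w))) (fun A => (t A).toNat)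
  · intro A
    exact Bool.toNat_le (t A)
  · intro A
    rw [(hCT w hw.ok A (k A) (t A) (hkt A)).2.1]
    show t A = true ↔ (t A).toNat = 1
    cases t A
    · exact ⟨fun h => absurd h (by decide), fun h => absurd h (by decide)⟩
    · exact ⟨fun _ => rfl, fun _ => rfl⟩
  · intro A
    rw [(hCT w hw.ok A (k A) (t A) (hkt A)).2.2]
    show t A = false ↔ (t A).toNat = 0
    cases t A
    · exact ⟨fun _ => rfl, fun _ => rfl⟩
    · exact ⟨fun h => absurd h (by decide), fun h => absurd h (by decide)⟩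
  · intro A
    obtain ⟨c1, c2, c3⟩ := hCT w hw.ok A (k A) (t A) (hkt A)
    obtain ⟨g1, g2⟩ := jo1 (seq A) w 2 2 hw.ok
    obtain ⟨l1, l2⟩ := hLO (jo (seq A) w) (k A) (t A) g1 g2 (hkt A)
    cases hta : t A with
    | false =>
      rw [hta] at l1 c3
      have h5 : (gO w hw.ok).sp ⊥ (Finset.univ \ A) ⊔ (gO w hw.ok).ab =
        (gO w hw.ok).sp ⊥ (Finset.univ \ A) := sup_pr_of _ (c3.2 rfl)
      rw [h5]
      have h6 : false.toNat = 0 := rfl
      rw [h6] at l1
      omega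
    | true =>
      rw [hta] at l1 c3
      have h5 : nc ((gO w hw.ok).sp ⊥ (Finset.univ \ A) ⊔ (gO w hw.ok).ab) + 1 =
        nc ((gO w hw.ok).sp ⊥ (Finset.univ \ A)) :=
          nc_sup_pr fun h => absurd (c3.1 h) (by decide)
      have h6 : true.toNat = 1 := rfl
      rw [h6] at l1
      omega
  · intro A
    obtain ⟨c1, c2, c3⟩ := hCT w hw.ok A (k A) (t A) (hkt A)
    obtain ⟨g1, g2⟩ := jo1 (seq A) w 2 2 hw.ok
    obtain ⟨l1, l2⟩ := hLO (jo (seq A) w) (k A) (t A) g1 g2 (hkt A)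
    cases hta : t A with
    | false =>
      rw [hta] at l2 c3
      have h5 : (gO w hw.ok).sp ⊥ (Finset.univ \ A) ⊔ (gO w hw.ok).ab =
        (gO w hw.ok).sp ⊥ (Finset.univ \ A) := sup_pr_of _ (c3.2 rfl)
      rw [h5]
      have h6 : false.toNat = 0 := rfl
      rw [h6] at l2 ⊢
      omega
    | true =>
      rw [hta] at l2 c3
      have h5 : nc ((gO w hw.ok).sp ⊥ (Finset.univ \ A) ⊔ (gO w hw.ok).ab) + 1 =
        nc ((gO w hw.ok).sp ⊥ (Finset.univ \ A)) :=
          nc_sup_pr fun h => absurd (c3.1 h) (by decide)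
      have h6 : true.toNat = 1 := rfl
      rw [h6] at l2 ⊢
      omega
  · intro A
    exact hDU w hw.ok A
  · exact hw.two
  · intro A hA hA'
    obtain ⟨v1, v2⟩ := hval A hA hA'
    have h5 := hw.prN (fun k => xor (seq A k) e) v1 v2
    rw [hst] at h5
    have h6 := hst' A
    rw [h6] at h5
    exact h5
  · intro A hA hA'
    obtain ⟨v1, v2⟩ := hval A hA hA'
    have h5 := hw.prD (fun k => xor (seq A k) e) v1 v2
    rw [hst] at h5
    have h6 := hst' A
    rw [h6] at h5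
    exact h5

end Pool.ALT
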