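import Pool.Agent.ALT.Mo.St
import Pool.Agent.ARB.Basic

/-! # ALT, block Mo: closed curves of the closures -/

set_option autoImplicit false

namespace Pool.ALT

open LaurentPolynomial Pool.Agent.ARB Pool.Agent.Helper2

private theorem lo_run (W : Word) (h : NoX W) : ∀ ψ : List Bool → ℤ,
    runC colModel W ψ = colOps.run (toD W) ψ := by
  induction W with
  | nil => intro ψ; rfl
  | cons s W ih =>
    intro ψ
    have h1 : NoX W := fun t ht => h t (List.mem_cons_of_mem _ ht)
    have h2 := h s List.mem_cons_self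
    obtain ⟨k, i⟩ := s
    cases k with
    | U => exact ih h1 _
    | N => exact ih h1 _
    | X p => rcases h2 with h2 | h2 <;> exact absurd h2 (by simp)

private theorem lo_ok (W : Word) : ∀ (n m : ℕ), Pool.Agent.ARB.Ok W n m → Pool.Agent.Helper2.Ok (toD W) n m := by
  induction W with
  | nil => intro n m h; exact h
  | cons s W ih =>
    intro n m h
    obtain ⟨k, i⟩ := s
    have h1 := h.1
    have h2 := ih _ _ h.2
    cases k with
    | U => exact ⟨h1, h2⟩
    | N => exact ⟨h1, h2⟩
    | X p =>
      have h3 : i + 2 ≤ n := h1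
      have h4 : n - 2 + 2 = n := by omega
      refine ⟨h3, ?_⟩
      have h5 : Pool.Agent.Helper2.Ok (toD W) (n - 2 + 2) m := h2
      rw [h4] at h5
      exact h5

private theorem lo_append {R V : Type} [CommRing R] [AddCommGroup V] [Module R V] (M : Model R V)
    (u v : Word) : ∀ x : V, runC M (u ++ v) x = runC M v (runC M u x) := by
  induction u with
  | nil => intro x; rfl
  | cons s u ih =>
    intro x
    obtain ⟨k, i⟩ := s
    cases k with
    | U => exact ih _
    | N => exact ih _
    | X p => exact ih _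

/-- the number of closed curves from the colouring model -/
private theorem lo_loops (W : Word) (h : NoX W) (hW : Pool.Agent.ARB.Ok W 0 0) (k : ℕ)
    (hk : runC colModel W colModel.init = colModel.δ ^ k • colModel.init) : loops W = k := by
  have h1 := colour_curves (toD W) (lo_ok W 0 0 hW)
  have e1 : colModel.init = (fun l => if l.length = 0 then 1 else 0) := rfl
  rw [← e1, ← lo_run W h, hk] at h1
  have h2 : (colModel.δ ^ k • colModel.init) [] = (2 : ℤ) ^ k := by
    rw [Pi.smul_apply, smul_eq_mul, e1]
    simp [colModel]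
  rw [h2] at h1
  have h3 := Int.pow_right_injective (a := 2) (by decide) h1
  exact h3.symm

private theorem lo_NW (w : Word) (h : NoX w) : NoX (NW w) := by
  intro s hs
  simp only [NW, List.mem_cons, List.mem_append, List.not_mem_nil, or_false] at hs
  rcases hs with rfl | rfl | hs | rfl | rfl
  · exact Or.inl rfl
  · exact Or.inl rfl
  · exact h s hs
  · exact Or.inr rfl
  · exact Or.inr rfl

private theorem lo_DW (w : Word) (h : NoX w) : NoX (DW w) := by
  intro s hs
  simp only [DW, List.mem_cons, List.mem_append, List.not_mem_nil, or_false] at hs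
  rcases hs with rfl | hs | rfl
  · exact Or.inl rfl
  · exact h s hs
  · exact Or.inr rfl

theorem thm_LO : St_LO := by
  intro w k t hX hok hNf
  set M := colModel with hM
  have s0 : M.Supp 0 M.init := M.supp_init
  have s2 : M.Supp 2 (M.cup 0 M.init) := M.supp_cup 0 0 _ le_rfl s0
  have s4 : M.Supp 4 (M.cup 1 (M.cup 0 M.init)) := M.supp_cup 2 1 _ (by omega) s2
  have r0 : M.cap 0 (M.cup 0 M.init) = M.δ • M.init := M.rel1 0 0 _ s0 le_rfl
  have r1 : M.cap 1 (M.cup 1 (M.cup 0 M.init)) = M.δ • M.cup 0 M.init :=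
    M.rel1 2 1 _ s2 (by omega)
  have r2 : M.cap 1 (M.cup 0 (M.cup 0 M.init)) = M.cup 0 M.init := M.rel2 2 0 _ s2 (by omega)
  have r3 : M.cap 0 (M.cup 1 (M.cup 0 M.init)) = M.cup 0 M.init := M.rel3 2 0 _ s2 (by omega)
  have n4 := hNf M 0 4 (M.cup 1 (M.cup 0 M.init)) (by omega) s4
  have n2 := hNf M 0 2 (M.cup 0 M.init) (by omega) s2
  rw [sh_zero] at n4 n2
  have eN : runC M (NW w) M.init =
      M.cap 0 (M.cap 1 (runC M w (M.cup 1 (M.cup 0 M.init)))) := by
    have : runC M (NW w) M.init = runC M (w ++ [pN 1, pN 0]) (M.cup 1 (M.cup 0 M.init)) := rfl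
    rw [this, lo_append]
    rfl
  have eD : runC M (DW w) M.init = M.cap 0 (runC M w (M.cup 0 M.init)) := by
    have : runC M (DW w) M.init = runC M (w ++ [pN 0]) (M.cup 0 M.init) := rfl
    rw [this, lo_append]
    rfl
  cases t with
  | false =>
    simp only [Bool.false_eq_true, if_false] at n4 n2
    have hN := lo_loops (NW w) (lo_NW w hX) (ok_NW hok) (k + 2) (by
      rw [← hM, eN, n4, map_smul, r1, map_smul, map_smul, r0, smul_smul, smul_smul]
      rfl)
    have hD := lo_loops (DW w) (lo_DW w hX) (ok_DW hok) (k + 1) (by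
      rw [← hM, eD, n2, map_smul, r0, smul_smul]
      congr 1)
    rw [hN, hD]
    exact ⟨rfl, rfl⟩
  | true =>
    simp only [if_true] at n4 n2
    have hN := lo_loops (NW w) (lo_NW w hX) (ok_NW hok) (k + 1) (by
      rw [← hM, eN, n4, r3, map_smul, r2, map_smul, r0, smul_smul]
      congr 1)
    have hD := lo_loops (DW w) (lo_DW w hX) (ok_DW hok) (k + 2) (by
      rw [← hM, eD, n2, r0, map_smul, map_smul, map_smul, r0, smul_smul, smul_smul]
      rfl)
    rw [hN, hD]
    exact ⟨rfl, rfl⟩

end Pool.ALT
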