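import Pool.Agent.ALT.Mo.St

/-! # ALT, block Mo, module NF: normal form of words without crossings (first caps, then cups) -/

set_option autoImplicit false

namespace Pool.ALT

open Pool.Agent.ARB Pool.Agent.Helper2

section

variable {R V : Type} [CommRing R] [AddCommGroup V] [Module R V]

/-- cups, topmost first, shifted by `j` -/
def nf_cu (M : Model R V) (j : ℕ) : List ℕ → V → V
  | [], y => y
  | i :: C, y => M.cup (i + j) (nf_cu M j C y)

/-- caps, lowest first, shifted by `j` -/
def nf_ca (M : Model R V) (j : ℕ) : List ℕ → V → V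
  | [], y => y
  | i :: D, y => nf_ca M j D (M.cap (i + j) y)

/-- the cups fit from width `a` to width `n` -/
inductive nf_Up : ℕ → List ℕ → ℕ → Prop
  | nil (a : ℕ) : nf_Up a [] a
  | cons {a n i : ℕ} {C : List ℕ} : nf_Up a C n → i ≤ n → nf_Up a (i :: C) (n + 2)

/-- the caps fit from width `a` to width `b` -/
inductive nf_Dn : List ℕ → ℕ → ℕ → Prop
  | nil (a : ℕ) : nf_Dn [] a a
  | cons {a b i : ℕ} {D : List ℕ} : i ≤ a → nf_Dn D a b → nf_Dn (i :: D) (a + 2) b

theorem nf_Up_le {a n : ℕ} {C : List ℕ} (h : nf_Up a C n) : a ≤ n := by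
  induction h with
  | nil => exact le_rfl
  | cons _ _ ih => omega

theorem nf_Dn_snoc {D : List ℕ} {a b c i : ℕ} (h : nf_Dn D a c) (hc : c = b + 2) (hi : i ≤ b) :
    nf_Dn (D ++ [i]) a b := by
  induction h with
  | nil a =>
    subst hc
    exact nf_Dn.cons hi (nf_Dn.nil b)
  | cons h1 _ ih => exact nf_Dn.cons h1 (ih hc)

theorem nf_ca_snoc (M : Model R V) (j i : ℕ) : ∀ (D : List ℕ) (y : V),
    nf_ca M j (D ++ [i]) y = M.cap (i + j) (nf_ca M j D y)
  | [], _ => rfl
  | _ :: D, y => nf_ca_snoc M j i D _

theorem nf_supp_cu (M : Model R V) (j t : ℕ) {a n : ℕ} {C : List ℕ} (h : nf_Up a C n) (y : V)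
    (hy : M.Supp (j + a + t) y) : M.Supp (j + n + t) (nf_cu M j C y) := by
  induction h with
  | nil => exact hy
  | @cons n i C _ hi ih =>
    have h1 := M.supp_cup (j + n + t) (i + j) _ (by omega) ih
    have e : j + (n + 2) + t = j + n + t + 2 := by ring
    rw [e]
    exact h1

theorem nf_supp_ca (M : Model R V) (j t : ℕ) {a b : ℕ} {D : List ℕ} (h : nf_Dn D a b) : ∀ (y : V),
    M.Supp (j + a + t) y → M.Supp (j + b + t) (nf_ca M j D y) := by
  induction h with
  | nil a => exact fun y hy => hy
  | @cons a b i D hi _ ih =>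
    intro y hy
    apply ih
    apply M.supp_cap (j + a + t) (i + j) y (by omega)
    have e : j + (a + 2) + t = j + a + t + 2 := by ring
    rw [← e]
    exact hy

theorem nf_runC_smul (M : Model R V) (r : R) : ∀ (w : Word) (x : V),
    runC M w (r • x) = r • runC M w x
  | [], _ => rfl
  | ⟨.U, i⟩ :: w, x => by
      show runC M w (M.cup i (r • x)) = r • runC M w (M.cup i x)
      rw [map_smul, nf_runC_smul M r w]
  | ⟨.N, i⟩ :: w, x => by
      show runC M w (M.cap i (r • x)) = r • runC M w (M.cap i x)
      rw [map_smul, nf_runC_smul M r w]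
  | ⟨.X _, i⟩ :: w, x => nf_runC_smul M r w x

end

/-- a cap which comes from above is moved through the cups -/
theorem nf_cap (a : ℕ) (C : List ℕ) : ∀ (n l : ℕ), nf_Up a C (n + 2) → l ≤ n →
    (∃ (C' : List ℕ) (e : ℕ), nf_Up a C' n ∧
      ∀ {R V : Type} [CommRing R] [AddCommGroup V] [Module R V] (M : Model R V) (j t : ℕ) (y : V),
        M.Supp (j + a + t) y → M.cap (l + j) (nf_cu M j C y) = M.δ ^ e • nf_cu M j C' y) ∨
    (∃ (C' : List ℕ) (a0 l' : ℕ), a = a0 + 2 ∧ l' ≤ a0 ∧ nf_Up a0 C' n ∧
      ∀ {R V : Type} [CommRing R] [AddCommGroup V] [Module R V] (M : Model R V) (j t : ℕ) (y : V),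
        M.Supp (j + a + t) y →
          M.cap (l + j) (nf_cu M j C y) = nf_cu M j C' (M.cap (l' + j) y)) := by
  induction C with
  | nil =>
    intro n l h hl
    cases h with
    | nil =>
      right
      exact ⟨[], n, l, rfl, hl, nf_Up.nil n, fun M j t y _ => rfl⟩
  | cons i C ih =>
    intro n l h hl
    cases h with
    | cons hC hi =>
      rcases Nat.lt_trichotomy l i with hlt | heq | hgt
      · obtain ⟨k, rfl⟩ : ∃ k, i = l + k + 1 := ⟨i - l - 1, by omega⟩
        cases k with
        | zero =>
          left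
          refine ⟨C, 0, hC, fun M j t y hy => ?_⟩
          have h1 := M.rel3 (j + n + t) (l + j) (nf_cu M j C y) (nf_supp_cu M j t hC y hy) (by omega)
          have e1 : l + 0 + 1 + j = l + j + 1 := by ring
          rw [pow_zero, one_smul, nf_cu, e1]
          exact h1
        | succ k =>
          obtain ⟨m, rfl⟩ : ∃ m, n = m + 2 := ⟨n - 2, by omega⟩
          have key : ∀ {R V : Type} [CommRing R] [AddCommGroup V] [Module R V] (M : Model R V)
              (j t : ℕ) (y : V), M.Supp (j + a + t) y →
              M.cap (l + j) (nf_cu M j ((l + (k + 1) + 1) :: C) y) =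
                M.cup (l + k + j) (M.cap (l + j) (nf_cu M j C y)) := by
            intro R V _ _ _ M j t y hy
            have h1 := M.rel5 (j + (m + 2) + t) (l + j) k (nf_cu M j C y)
              (nf_supp_cu M j t hC y hy) (by omega)
            have e1 : l + (k + 1) + 1 + j = l + j + k + 2 := by ring
            have e2 : l + k + j = l + j + k := by ring
            rw [nf_cu, e1, e2]
            exact h1
          rcases ih m l hC (by omega) with ⟨C', e, hC', H⟩ | ⟨C', a0, l', ha, hl', hC', H⟩
          · left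
            refine ⟨(l + k) :: C', e, nf_Up.cons hC' (by omega), fun M j t y hy => ?_⟩
            rw [key M j t y hy, H M j t y hy, map_smul, nf_cu]
          · right
            refine ⟨(l + k) :: C', a0, l', ha, hl', nf_Up.cons hC' (by omega),
              fun M j t y hy => ?_⟩
            rw [key M j t y hy, H M j t y hy, nf_cu]
      · subst heq
        left
        refine ⟨C, 1, hC, fun M j t y hy => ?_⟩
        have h1 := M.rel1 (j + n + t) (l + j) (nf_cu M j C y) (nf_supp_cu M j t hC y hy) (by omega)
        rw [pow_one, nf_cu]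
        exact h1
      · obtain ⟨k, rfl⟩ : ∃ k, l = i + k + 1 := ⟨l - i - 1, by omega⟩
        cases k with
        | zero =>
          left
          refine ⟨C, 0, hC, fun M j t y hy => ?_⟩
          have h1 := M.rel2 (j + n + t) (i + j) (nf_cu M j C y) (nf_supp_cu M j t hC y hy) (by omega)
          have e1 : i + 0 + 1 + j = i + j + 1 := by ring
          rw [pow_zero, one_smul, nf_cu, e1]
          exact h1
        | succ k =>
          obtain ⟨m, rfl⟩ : ∃ m, n = m + 2 := ⟨n - 2, by omega⟩
          have key : ∀ {R V : Type} [CommRing R] [AddCommGroup V] [Module R V] (M : Model R V)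
              (j t : ℕ) (y : V), M.Supp (j + a + t) y →
              M.cap (i + (k + 1) + 1 + j) (nf_cu M j (i :: C) y) =
                M.cup (i + j) (M.cap (i + k + j) (nf_cu M j C y)) := by
            intro R V _ _ _ M j t y hy
            have h1 := M.rel4 (j + (m + 2) + t) (i + j) k (nf_cu M j C y)
              (nf_supp_cu M j t hC y hy) (by omega)
            have e1 : i + (k + 1) + 1 + j = i + j + k + 2 := by ring
            have e2 : i + k + j = i + j + k := by ring
            rw [nf_cu, e1, e2]
            exact h1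
          rcases ih m (i + k) hC (by omega) with ⟨C', e, hC', H⟩ | ⟨C', a0, l', ha, hl', hC', H⟩
          · left
            refine ⟨i :: C', e, nf_Up.cons hC' (by omega), fun M j t y hy => ?_⟩
            rw [key M j t y hy, H M j t y hy, map_smul, nf_cu]
          · right
            refine ⟨i :: C', a0, l', ha, hl', nf_Up.cons hC' (by omega), fun M j t y hy => ?_⟩
            rw [key M j t y hy, H M j t y hy, nf_cu]

/-- normal form, with accumulators -/
theorem nf_word (a : ℕ) : ∀ (w : Word) (b b' c : ℕ) (D C : List ℕ), NoX w →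
    Pool.Agent.ARB.Ok w b b' → nf_Dn D a c → nf_Up c C b →
    ∃ (D' C' : List ℕ) (e c' : ℕ), nf_Dn D' a c' ∧ nf_Up c' C' b' ∧
      ∀ {R V : Type} [CommRing R] [AddCommGroup V] [Module R V] (M : Model R V) (j t : ℕ) (y : V),
        M.Supp (j + a + t) y → runC M (sh j w) (nf_cu M j C (nf_ca M j D y)) =
          M.δ ^ e • nf_cu M j C' (nf_ca M j D' y)
  | [], b, b', c, D, C, _, hok, hD, hC => by
      have e : b = b' := hok
      subst e
      refine ⟨D, C, 0, c, hD, hC, fun M j t y _ => ?_⟩
      rw [pow_zero, one_smul]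
      rfl
  | ⟨.U, i⟩ :: w, b, b', c, D, C, hX, hok, hD, hC => by
      have h1 : i ≤ b := hok.1
      obtain ⟨D', C', e, c', hD', hC', H⟩ := nf_word a w (b + 2) b' c D (i :: C)
        (fun s hs => hX s (List.mem_cons_of_mem _ hs)) hok.2 hD (nf_Up.cons hC h1)
      exact ⟨D', C', e, c', hD', hC', fun M j t y hy => H M j t y hy⟩
  | ⟨.N, i⟩ :: w, b, b', c, D, C, hX, hok, hD, hC => by
      have h1 : i + 2 ≤ b := hok.1
      obtain ⟨n, rfl⟩ : ∃ n, b = n + 2 := ⟨b - 2, by omega⟩
      have hok2 : Pool.Agent.ARB.Ok w n b' := hok.2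
      have hX2 : NoX w := fun s hs => hX s (List.mem_cons_of_mem _ hs)
      rcases nf_cap c C n i hC (by omega) with ⟨C1, e1, hC1, H1⟩ | ⟨C1, a0, l', rfl, hl', hC1, H1⟩
      · obtain ⟨D', C', e, c', hD', hC', H⟩ := nf_word a w n b' c D C1 hX2 hok2 hD hC1
        refine ⟨D', C', e1 + e, c', hD', hC', fun M j t y hy => ?_⟩
        show runC M (sh j w) (M.cap (i + j) (nf_cu M j C (nf_ca M j D y))) = _
        rw [H1 M j t _ (nf_supp_ca M j t hD y hy), nf_runC_smul, H M j t y hy, smul_smul, pow_add]
      · obtain ⟨D', C', e, c', hD', hC', H⟩ := nf_word a w n b' a0 (D ++ [l']) C1 hX2 hok2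
          (nf_Dn_snoc hD rfl hl') hC1
        refine ⟨D', C', e, c', hD', hC', fun M j t y hy => ?_⟩
        show runC M (sh j w) (M.cap (i + j) (nf_cu M j C (nf_ca M j D y))) = _
        rw [H1 M j t _ (nf_supp_ca M j t hD y hy), ← nf_ca_snoc, H M j t y hy]
  | ⟨.X p, i⟩ :: w, b, b', c, D, C, hX, hok, hD, hC => by
      rcases hX ⟨.X p, i⟩ List.mem_cons_self with h | h
      · exact Kind.noConfusion h
      · exact Kind.noConfusion h

/-- [NF] normal form of words without crossings. -/
theorem thm_NF : St_NF := by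
  intro w hX hok
  obtain ⟨D, C, e, c, hD, hC, H⟩ := nf_word 2 w 2 2 2 [] [] hX hok (nf_Dn.nil 2) (nf_Up.nil 2)
  cases hD with
  | nil =>
    have hC0 : C = [] := by
      cases hC with
      | nil => rfl
      | cons h1 _ =>
        have := nf_Up_le h1
        omega
    subst hC0
    refine ⟨e, false, ?_⟩
    intro R V _ _ _ M j n x hn hx
    have h1 := H M j (n - (j + 2)) x (by rw [show j + 2 + (n - (j + 2)) = n by omega]; exact hx)
    simp only [Bool.false_eq_true, if_false]
    exact h1
  | @cons _ _ i D hi hD1 =>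
    cases hD1 with
    | nil =>
      have hC0 : C = [0] := by
        cases hC with
        | @cons _ i' C' h1 h2 =>
          cases h1 with
          | nil =>
            have : i' = 0 := by omega
            rw [this]
      subst hC0
      have hi0 : i = 0 := by omega
      subst hi0
      refine ⟨e, true, ?_⟩
      intro R V _ _ _ M j n x hn hx
      have h1 := H M j (n - (j + 2)) x (by rw [show j + 2 + (n - (j + 2)) = n by omega]; exact hx)
      simp only [if_true]
      have e0 : 0 + j = j := by ring
      simp only [nf_cu, nf_ca, e0] at h1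
      exact h1

end Pool.ALT
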