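import Pool.Agent.ALT.Mo.Defs

/-! # ALT, block Mo: statements with complete proofs in the docstrings

Conventions. `n' = n - s.k.inn + s.k.out`. All definitions are in `Mo/Defs.lean`. A module proves
`theorem thm_X : St_X`, from the statements named in its offer as hypotheses. All statements were
checked by computer on 20000 random words (all states). For `Loc n (s :: w)` use that it is
definitionally `Fin (n + 1) ⊕ Loc n' w`; `bo n (s :: w) j = Sum.inl (Fin.ofNat (n + 1) j)`,
`tp n (s :: w) j = Sum.inr (tp n' w j)` hold by `rfl`. -/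

set_option autoImplicit false

namespace Pool.ALT

open LaurentPolynomial Pool.Agent.ARB Pool.Agent.Helper2

/-! ### words -/

/-- [JO] PROOF. Induction on `w`. Crossing, horizontal case: `i + 2 ≤ n` and
`i + 0 ≤ n - 2 + 0`, `n - 2 + 0 - 0 + 2 = n - 2 + 2`. Second claim: induction on `w` (for all `B`, `B'`). -/
def St_JO : Prop := (∀ (B : ℕ → Bool) (w : Word) (n m : ℕ), Ok w n m →
    NoX (jo B w) ∧ Ok (jo B w) n m) ∧
  ∀ (w : Word) (B B' : ℕ → Bool), (∀ k < nX w, B k = B' k) → jo B w = jo B' w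

/-- [SJ] in an alternating word the `A`-smoothings join the regions of one parity.
PROOF. Induction on `w` for all `a`. At a crossing `pX i p` the state is horizontal iff `a 0 ≠ p`, and
`jo` is horizontal iff `xor (a 0) e = decide (i % 2 = 0)`; with `p = e ↔ i % 2 = 0` these agree
(`cases` on `a 0`, `p`, `e` and on `i % 2 = 0`). -/
def St_SJ : Prop := ∀ (e : Bool) (w : Word) (a : ℕ → Bool),
  (∀ (p : Bool) (i : ℕ), pX i p ∈ w → (p = e ↔ i % 2 = 0)) →
  state a w = jo (fun k => xor (a k) e) w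

/-- [NF] normal form of words without crossings: first caps, then cups.
PROOF (like `Helper2.cap_build`, but the bottom vector `y` may have strands). For a model `M`, a shift `j`
and a list `C` put `cu C y = y` for `C = []` and `cu (i :: C) y = M.cup (i + j) (cu C y)` (topmost cup
first), and `ca D y = y`, `ca (i :: D) y = ca D (M.cap (i + j) y)` (lowest cap first).
`CupsOk' a C n`: the cups fit from width `a` to width `n` (`CupsOk' a [] a`, `i ≤ n` for `i :: C` on top of
width `n`); `CapsOk D a b`: the caps fit from width `a` to `b`.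
(1) CAP THROUGH CUPS: for `CupsOk' a C (n + 2)`, `l ≤ n` there is either `C'`, `e` with `CupsOk' a C' n` and
`M.cap (l + j) (cu C y) = M.δ ^ e • cu C' y`, or `C'`, `l'`, `a₀` with `a = a₀ + 2`, `l' ≤ a₀`, `CupsOk' a₀ C' n` and
`M.cap (l + j) (cu C y) = cu C' (M.cap (l' + j) y)`, for all `R`, `V`, `M`, `j`, `N`, `y` with `M.Supp N y`,
`j + a ≤ N`. Induction on `C` as in `cap_build`: `C = []`: second case. `C = i :: C₁`: `l = i`: `rel1`, `e = 1`;
`l = i - 1`: `rel3`; `l = i + 1`: `rel2`; `l ≤ i - 2`: `rel5`, `l ≥ i + 2`: `rel4`, then the induction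
hypothesis for `C₁` (the strands to the right and left do not matter; the support of `cu C₁ y` is
`N - a + n₁`).
(2) For `NoX w`, `Ok w a b` there are `D`, `C`, `e`, `c` with `CapsOk D a c`, `CupsOk' c C b` and
`runC M (sh j w) y = M.δ ^ e • cu C (ca D y)` for all models: induction on `w` from the top
(`List.reverseRecOn`, or carry `C`, `D` as accumulators through an induction on `w` like
`run_smul_build`): a cup is added to `C`; for a cap use (1), in its second case the cap is added at the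
end of `D`. (`runC M (u ++ [s]) y` = piece `s` applied to `runC M u y`.)
(3) `a = b = 2`: `CapsOk D 2 c` gives `D = []`, `c = 2` or `D = [0]`, `c = 0`; then `CupsOk' 2 C 2` gives `C = []`, and
`CupsOk' 0 C 2` gives `C = [0]`. First case `t = false`, second `t = true`, `k = e`. -/
def St_NF : Prop := ∀ w : Word, NoX w → Ok w 2 2 → ∃ (k : ℕ) (t : Bool), Nf w k t

/-! ### the model of region colourings -/

/-- [RM] PROOF. `Supp _ _ = True`, `init = fun _ => 1`, `cup`, `cap` by the formulas (linear). The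
relations hold for all functions: compare the arguments with `funext`, `dl`, `ins`, `split_ifs`,
`omega`. `rel1`: `ins i b c` has equal colours at `i`, `i + 2` and `dl i (ins i b c) = c`: sum `2 ψ`.
`rel2`: `ins (i+1) b c i = ins (i+1) b c (i+2)` iff `c i = b`, and then `dl i (ins (i+1) b c) = c`. `rel3`:
`ins i b c (i+1) = ins i b c (i+3)` iff `b = c (i+1)`, and then `dl (i+1) (ins i b c) = c`. `rel4`, `rel5`:
`dl` and `ins` at distant places commute and do not change the colours compared. -/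
def St_RM : Prop := ∃ M : Model ℤ ((ℕ → Bool) → ℤ), RMod M

/-- the operator of a piece in the state `b` -/
noncomputable def pop (M : Model ℤ ((ℕ → Bool) → ℤ)) (b : Bool) (s : Piece)
    (ψ : (ℕ → Bool) → ℤ) : (ℕ → Bool) → ℤ :=
  match s.k with
  | .U => M.cup s.i ψ
  | .N => M.cap s.i ψ
  | .X _ => if b = decide (s.i % 2 = 0) then M.cup s.i (M.cap s.i ψ) else ψ

/-- the rows of colours `c` (below) and `c'` (above) fit to the piece in the state `b` -/
def PC (b : Bool) (s : Piece) (n : ℕ) (c c' : ℕ → Bool) : Prop :=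
  match s.k with
  | .U => (∀ j ≤ s.i, c j = c' j) ∧ ∀ j, s.i ≤ j → j ≤ n → c j = c' (j + 2)
  | .N => (∀ j ≤ s.i, c j = c' j) ∧ ∀ j, s.i ≤ j → j + 2 ≤ n → c (j + 2) = c' j
  | .X _ => (∀ j ≤ n, j ≠ s.i + 1 → c j = c' j) ∧
      (if b = decide (s.i % 2 = 0) then c s.i = c (s.i + 2) else c (s.i + 1) = c' (s.i + 1))

open Classical in
/-- [TP] one piece.
PROOF. `Dep`: from the formulas (`dl i c j` for `j ≤ n` uses `c` at places `≤ n + 2`, `ins i b c j` for
`j ≤ n` uses `c` at places `≤ n - 2` or nothing). The sum: `U`: at most one `c` fits, namely `dl i c'`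
restricted to `0..n`, and it fits iff `c' i = c' (i + 2)` (both conditions at `j = i`). `N`: exactly the
two rows `ins i true c'`, `ins i false c'` restricted to `0..n` fit (they differ at `i + 1 ≤ n`). `X`,
not horizontal: exactly `c'` restricted. `X`, horizontal: none if `c' i ≠ c' (i + 2)`, otherwise
the two rows `ins i b (dl i c')`. The value of `ψ` at a restricted row is its value at the row (`Dep`;
the row `fun j => c (Fin.ofNat (n + 1) j)` agrees with `c` for `j ≤ n`). -/
def St_TP : Prop := ∀ (M : Model ℤ ((ℕ → Bool) → ℤ)), RMod M → ∀ (b : Bool) (s : Piece) (n : ℕ)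
  (ψ : (ℕ → Bool) → ℤ) (c' : ℕ → Bool), s.i + s.k.inn ≤ n → Dep n ψ →
  Dep (n - s.k.inn + s.k.out) (pop M b s ψ) ∧
  pop M b s ψ c' = ∑ c : Fin (n + 1) → Bool with PC b s n (fun j => c (Fin.ofNat (n + 1) j)) c',
    ψ (fun j => c (Fin.ofNat (n + 1) j))

/-- [TC] the colourings of a word, one piece removed.
PROOF. `R0 n (s :: w)` relates `inl (ofNat j)` and `inr (bo n' w j')` for `gl s j j'`, `j ≤ n`, `j' ≤ n'`, and
`inr x'`, `inr y'` for `R0 n' w x' y'`; the first part of `PC` lists exactly the pairs with `gl s j j'`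
(`U`: `j' = j ≤ i` or `j' = j + 2`, `i ≤ j`; `N`: `j = j' ≤ i` or `j = j' + 2`, `i ≤ j'`; `X`: `j = j' ≠ i + 1`), and
for a crossing the edge `ed (B 0) 0` is (`i`, `i + 2` below) if `decide (i % 2 = 0) = B 0` and otherwise
(`i + 1` below, `i + 1` above): the second part of `PC`. For `k + 1` the edge is the edge `k` of `w`
(`Fin.cases`, `Fin.forall_fin_succ`). -/
def St_TC : Prop := ∀ (B : ℕ → Bool) (s : Piece) (w : Word) (n m : ℕ), Ok (s :: w) n m →
  ∀ (c : Fin (n + 1) → Bool) (f : Loc (n - s.k.inn + s.k.out) w → Bool),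
  Cp B n (s :: w) (fun x => Sum.elim c f (show Fin (n + 1) ⊕ Loc (n - s.k.inn + s.k.out) w from x)) ↔
    PC (B 0) s n (fun j => c (Fin.ofNat (n + 1) j)) (fun j => f (bo _ w j)) ∧
    Cp (fun k => B (k + (if s.k = .U ∨ s.k = .N then 0 else 1))) (n - s.k.inn + s.k.out) w f

open Classical in
/-- [TR] the transfer formula.
PROOF (from TP, TC). Induction on `w` (for all `B`, `n`, `ψ`). `w = []`: `n = m`, `runC M [] ψ d = ψ d`; the only
`f` is `d` restricted to `0..n` (`Cp` is trivial). `s :: w`: `runC M (jo B (s :: w)) ψ =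
runC M (jo B' w) (pop M (B 0) s ψ)`; by induction (`Dep` from [TP]) this at `d` is
`∑_{f'} (pop M (B 0) s ψ) (row of f')`, insert [TP] and use `f = Sum.elim c f'` (the equivalence
`Equiv.sumArrowEquivProdArrow`, `Fintype.sum_equiv`, `Fintype.sum_prod_type`), [TC],
`tp n (s :: w) j = inr (tp n' w j)`. -/
def St_TR : Prop := ∀ (M : Model ℤ ((ℕ → Bool) → ℤ)), RMod M → ∀ (B : ℕ → Bool) (w : Word)
  (n m : ℕ) (ψ : (ℕ → Bool) → ℤ) (d : ℕ → Bool), Ok w n m → Dep n ψ →
  runC M (jo B w) ψ d = ∑ f : Loc n w → Bool with Cp B n w f ∧ ∀ j ≤ m, f (tp n w j) = d j,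
    ψ (fun j => f (bo n w j))

/-! ### counting -/

open Classical in
/-- [CA] PROOF. The functions with `σ ≤ Setoid.ker F` correspond to the functions on `Quotient σ`
(`Setoid.liftEquiv`, or `Quotient.lift`), there are `2 ^ card` of them. If `¬ σ x y` the function
`z ↦ decide (σ x z)` separates `x` and `y`. -/
def St_CA : Prop := ∀ {V : Type} [Fintype V] [DecidableEq V] (σ : Setoid V),
  (Finset.univ.filter fun F : V → Bool => σ ≤ Setoid.ker F).card = 2 ^ nc σ ∧
  ∀ x y, σ x y ↔ ∀ F : V → Bool, σ ≤ Setoid.ker F → F x = F y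

open Classical in
/-- [CO] colourings of a state = pairs of colourings of the two graphs.
PROOF (from CA). `A : Finset (Fin (nX w))`, `B = seq A` (`seq A k = true ↔ k ∈ A` for `k : Fin (nX w)`).
`gs 2 w ≤ ker f` iff `f x = f y` whenever `R0 x y` (`iSup_le_iff`, `pr_le_iff`). So the `f` with `Cp` are the
compositions of `Quotient.mk` with the `F : Quotient (gs 2 w) → Bool` such that
`F [(ed true k).1] = F [(ed true k).2]` for `k ∈ A` and `F [(ed false k).1] = F [(ed false k).2]` for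
`k ∉ A`. Every class is the class of some `x`, and lies in exactly one of `Reg true w`, `Reg false w`
according to `pa 2 w x` (`pa_gs`), so the `F` are the pairs `(F₁, F₂)` of functions on these two types;
the conditions are `(gE w h).sp ⊥ A ≤ ker F₁` and `(gO w h).sp ⊥ (univ \ A) ≤ ker F₂` (`sup_le_iff`,
`Finset.sup_le_iff`, `pr_le_iff`). Count with [CA]. For the two last claims extend a separating
colouring of one graph by a constant on the other. -/
def St_CO : Prop := ∀ (w : Word) (h : Ok w 2 2) (A : Finset (Fin (nX w))),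
  (Finset.univ.filter fun f : Loc 2 w → Bool => Cp (seq A) 2 w f).card =
    2 ^ (nc ((gE w h).sp ⊥ A) + nc ((gO w h).sp ⊥ (Finset.univ \ A))) ∧
  ((gE w h).sp ⊥ A (gE w h).a (gE w h).b ↔
    ∀ f, Cp (seq A) 2 w f → f (bo 2 w 0) = f (bo 2 w 2)) ∧
  ((gO w h).sp ⊥ (Finset.univ \ A) (gO w h).a (gO w h).b ↔
    ∀ f, Cp (seq A) 2 w f → f (bo 2 w 1) = f (tp 2 w 1))

/-- [CT] loops and types in terms of the graphs.
PROOF (from RM, TR, CO). Let `M` be the model of [RM]. `Nf` with `j = 0`, `n = 2` (`sh 0 w = w`: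
`Pool.Agent.ARB.sh_zero`): `runC M (jo (seq A) w) ψ = 2 ^ k • (if t then M.cup 0 (M.cap 0 ψ) else ψ)` for
all `ψ`. For `d : Fin 3 → Bool` let `d̂ j = d (Fin.ofNat 3 j)`. Summing [TR] over a set `S` of rows `d`,
`∑_{d ∈ S} runC M _ ψ d̂ = ∑_{f, Cp, top row in S} ψ (bottom row)` (each `f` has exactly one top row).
(1) `ψ = 1`, all `d`: right side `2 ^ (nc + nc)` ([CO]); left side `2 ^ k * 8` if `t = false`, and if
`t = true`: `M.cup 0 (M.cap 0 1) d̂ = 2` if `d 0 = d 2`, else `0`: `2 ^ k * 2 * 4`. So `nc + nc = k + 3`.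
(2) `ψ c = 1` if `c 0 ≠ c 2`, else `0`, all `d`: right side: number of `f` with
`f (bo 0) ≠ f (bo 2)`. Left side: `2 ^ k * 4 > 0` if `t = false`; `0` if `t = true` because
`ins 0 b c 0 = ins 0 b c 2`.
(3) `ψ c = 1` if `c 1 = true`, `S = {d 1 = false}`: right side: number of `f` with `f (bo 1) = true`,
`f (tp 1) = false`. Left side: `0` if `t = false`; `2 ^ k * 2` if `t = true` (`M.cap 0 ψ = 1`, and two
rows with `d 0 = d 2`, `d 1 = false`). The same with `true`, `false` exchanged. -/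
def St_CT : Prop := ∀ (w : Word) (h : Ok w 2 2) (A : Finset (Fin (nX w))) (k : ℕ) (t : Bool),
  Nf (jo (seq A) w) k t →
  nc ((gE w h).sp ⊥ A) + nc ((gO w h).sp ⊥ (Finset.univ \ A)) = k + 3 ∧
  ((gE w h).sp ⊥ A (gE w h).a (gE w h).b ↔ t = true) ∧
  ((gO w h).sp ⊥ (Finset.univ \ A) (gO w h).a (gO w h).b ↔ t = false)

/-- [PR] parity: changing one smoothing changes the parity of `k + t`.
PROOF. The sign model `S : Model ℤ ℤ`: `Supp = True`, `δ = -1`, `init = 1`, `cup i x = (-1) ^ i * x`,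
`cap i x = (-1) ^ (i + 1) * x`; relations: `(-1)^(i+1) (-1)^i = -1`, `(-1)^(i+2) (-1)^i = 1`,
`(-1)^(i+1) (-1)^(i+1) = 1`, and `rel4`, `rel5` compare equal signs. By induction on `w`: if `B`, `B'` differ
at exactly one `k < nX w` then `runC S (jo B w) x = - runC S (jo B' w) x` (at the crossing `k` one is
horizontal, factor `(-1)^(i+1) (-1)^i = -1`, the other vertical, factor `1`; `runC S _` is
multiplication by a sign). By `Nf` with `j = 0`, `n = 2`, `x = 1` (`sh_zero`): `runC S (jo (seq A) w) 1 = (-1)^k *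
(if t then (-1)^1 * (-1)^0 else 1) = (-1)^(k + t)`. So `(-1)^(k + t) = -(-1)^(k' + t')`. -/
def St_PR : Prop := ∀ (w : Word), Ok w 2 2 → ∀ (A : Finset (Fin (nX w))) (e : Fin (nX w)),
  e ∉ A → ∀ (k k' : ℕ) (t t' : Bool), Nf (jo (seq A) w) k t →
  Nf (jo (seq (insert e A)) w) k' t' → (k + t.toNat + (k' + t'.toNat)) % 2 = 1

/-- [DU] duality.
PROOF (from JO, NF, CT, PR). `N A = nc (gE.sp ⊥ A)`, `M A = nc (gO.sp ⊥ (univ \ A))`,
`M' A = nc (gO.sp ⊥ (univ \ A) ⊔ gO.ab)`. By [JO], [NF] there are `k`, `t` with `Nf`; [CT]: `N A + M A = k + 3`;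
`M' A + t = M A` (`t = true`: the marked vertices are not joined, `nc_sup_pr`; `t = false`: `sup_pr_of`).
So `N A + M' A + t = k + 3` (`t` as 0 or 1). Induction on `A` (`Finset.induction_on`). `∅`: `sp_empty`, `nc_bot`,
`Nat.card_eq_fintype_card`, `univ \ ∅ = univ`. `insert e A`: `N (insert e A) = N A - ε₁`
with `ε₁ ∈ {0, 1}` (`sp_insert`, `nc_sup_pr_le`, `nc_anti`), and `univ \ A = insert e (univ \ insert e A)` gives
`M' (insert e A) = M' A + ε₂`, `ε₂ ∈ {0, 1}` (`sp_insert`, `sup_right_comm`). By [PR] `N + M'` changes parity, so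
`ε₁ + ε₂ = 1` and `M' - N` increases by 1. -/
def St_DU : Prop := ∀ (w : Word) (h : Ok w 2 2) (A : Finset (Fin (nX w))),
  nc ((gO w h).sp ⊥ (Finset.univ \ A) ⊔ (gO w h).ab) + Fintype.card (Reg true w) =
    nc ((gE w h).sp ⊥ A) + A.card + nc ((gO w h).sp ⊥ Finset.univ ⊔ (gO w h).ab)

/-- [LO] closed curves of the closures.
PROOF. For a closed word `W` without crossings, `Ok W 0 0`: `runC colModel W colModel.init [] =
2 ^ loops W` (`Helper2.colour_curves` for `toD W`; `runC colModel W = colOps.run (toD W)` for `NoX W`, by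
induction as in `Helper2.run_ops_col`; `Helper2.Ok (toD W) 0 0` from `Ok W 0 0`; `colModel.δ = 2`,
`colModel.init [] = 1`). On the other side (write `M = colModel`, `Nf` with `j = 0`, `sh_zero`)
`runC M (NW w) init = cap 0 (cap 1 (runC M w (cup 1 (cup 0 init))))` with `n = 4`: `t = false`:
`δ ^ k • cap 0 (cap 1 (cup 1 (cup 0 init))) = δ ^ (k + 2) • init` (`rel1` twice); `t = true`:
`cap 0 (cup 1 (cup 0 init)) = cup 0 init` (`rel3`), `cap 1 (cup 0 (cup 0 init)) = cup 0 init` (`rel2`),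
`cap 0 (cup 0 init) = δ • init`: `δ ^ (k + 1) • init`. `DW w`: `cap 0 (runC M w (cup 0 init))`, `n = 2`:
`δ ^ (k + 1)` for `t = false`, `δ ^ (k + 2)` for `t = true`. Compare powers of 2. -/
def St_LO : Prop := ∀ (w : Word) (k : ℕ) (t : Bool), NoX w → Ok w 2 2 → Nf w k t →
  loops (NW w) + t.toNat = k + 2 ∧ loops (DW w) = k + 1 + t.toNat

/-- [LF] the leaf conditions in terms of the graphs.
PROOF (from JO, SJ, NF, CT, DU, LO). Notation as in [DU]; `n = nX w = Fintype.card (Fin (nX w)) ≥ 2`,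
`κ = nc (gO.sp ⊥ univ ⊔ gO.ab)`; for every `A` take `k`, `t` with `Nf (jo (seq A) w) k t`; `t A = 1` iff `a`, `b` are
joined in `gE.sp ⊥ A`. `N A + M' A + t A = k + 3`, `M' A + |V| = N A + |A| + κ`. By [LO]
`loops (NW (jo (seq A) w)) = k + 2 - t = N A + M' A - 1`, `loops (DW (jo (seq A) w)) = N A + M' A + 2 t A - 2`.
For `A` nonempty proper use `prN`, `prD` for `a k = xor (seq A k) e` ([SJ]: `state a w = jo (seq A) w`; the
opposite state is `jo (fun k => !seq A k) w = jo (seq (univ \ A)) w` by [JO]; `a` takes both values as `A`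
is neither empty nor everything): with `|A| + |Aᶜ| = n`
(1) `N A + N Aᶜ + κ ≤ |V| + 1`, (2) `N A + N Aᶜ + t A + t Aᶜ + κ ≤ |V| + 2`.
`A = {e₀}` in (1): `N A ≥ |V| - 1` (`nc_sup_pr_le`), `N Aᶜ ≥ 1`, so `κ ≤ 1`, and `κ ≥ 1` (`nc_pos`): `κ = 1`. So `pr`,
`du`, and `N univ ≤ N {e₀}ᶜ ≤ 1`: `con`. `sep` is [CT]. If `a = b` in `gE` then `t = 1` for all `A` and (2) for
`{e₀}` is false: `ab`. `cd`: by `con` `a`, `b` are joined in `gE.sp ⊥ univ`, so `c ≠ d` by `sep` (`A = univ`,
`sp_empty`). `con'`: `M ∅ = M' ∅ + t ∅ = κ + 0 = 1` (`a ≠ b`). `pr'`: `N A = nc (gE.sp ⊥ A ⊔ ab) + 1 - t A`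
(`nc_sup_pr`, `sup_pr_of`), inserted in (2). -/
def St_LF : Prop := ∀ (w : Word) (hw : IsLeaf w), Lg (gE w hw.ok) (gO w hw.ok)

/-! ### the bracket pair -/

/-- [HE] expansion in states.
PROOF. First `runC M w (c • x + y) = c • runC M w x + runC M w y` (induction on `w`). Then induction on
`w` for all `n`, `x` with `M.Supp (j + n) x`, `Ok w n m` (supports: `supp_cup`, `supp_cap`; `Good.add`,
`Good.smul` for the crossings). Crossing `pX i p` on top of the list: a set `A` of crossings of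
`pX i p :: w` is `A' + 1` or `insert 0 (A' + 1)` with `A' : Finset (Fin (nX w))` (`A' + 1 = A'.map Fin.succEmb`;
`Fintype.sum_equiv` or `Finset.sum_bij`), `seq A (k + 1) = seq A' k`. `runW M (sh j (pX i p :: w)) x =
runW M (sh j w) (T (if p then 1 else -1) • x + T (if p then -1 else 1) • M.cup (i + j) (M.cap (i + j) x))`. If
`0 ∉ A` then `jo` is horizontal iff `i` is odd, and the weight of that smoothing is `T (sg e)` (`p = e` iff
`i` even); if `0 ∈ A` it is horizontal iff `i` is even, weight `T (-sg e)`. `|A| = |A'|` or `|A'| + 1`. -/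
def St_HE : Prop := ∀ (V : Type) [AddCommGroup V] [Module LP V] (M : Model LP V), Good M →
  ∀ (e : Bool) (w : Word) (j n m : ℕ) (x : V), Ok w n m →
  (∀ (p : Bool) (i : ℕ), pX i p ∈ w → (p = e ↔ i % 2 = 0)) → M.Supp (j + n) x →
  runW M (sh j w) x = ∑ A : Finset (Fin (nX w)),
    (T (sg e * ((nX w : ℤ) - 2 * A.card)) : LP) • runC M (sh j (jo (seq A) w)) x

open Classical in
/-- [HP] PROOF (from HE). `x` with `M.Supp N x`, `j + 2 ≤ N`: use [HE] with `n = m = N - j`
(`Ok w 2 2 → Ok w (2 + r) (2 + r)`: `Pool.Agent.ARB.Ok.add`). Then insert `Nf` (`M.δ = loopVal` by `Good.del`)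
and collect the terms with `t A = true` and with `t A = false` (`Finset.sum_filter_add_sum_filter_not`,
`Finset.sum_smul`, `mul_smul`). -/
def St_HP : Prop := ∀ (e : Bool) (w : Word) (k : Finset (Fin (nX w)) → ℕ)
  (t : Finset (Fin (nX w)) → Bool), Ok w 2 2 →
  (∀ (p : Bool) (i : ℕ), pX i p ∈ w → (p = e ↔ i % 2 = 0)) →
  (∀ A, Nf (jo (seq A) w) (k A) (t A)) →
  HasPair w
    (∑ A : Finset (Fin (nX w)) with t A = true,
      T (sg e * ((nX w : ℤ) - 2 * A.card)) * loopVal ^ k A)
    (∑ A : Finset (Fin (nX w)) with ¬ t A = true,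
      T (sg e * ((nX w : ℤ) - 2 * A.card)) * loopVal ^ k A)

/-- [PB] the bracket pair of a leaf is the activity pair of the graph of the even regions.
PROOF (from JO, NF, CT, LF, HP). `g = gE w hw.ok`, `V = Reg true w`, `N A = nc (g.sp ⊥ A)`. By `LF`: `K ⊥ univ = 1`
(`con`, `sup_pr_of` or `nc_anti` and `nc_pos`), `nc ⊥ = |V|` (`nc_bot`). With `k`, `t` from [NF] (choice) and [CT]
and `du`: `k A = 2 N A + |A| - |V| - 2 + t A`, and `t A = true` iff `g.sp ⊥ A a b`. `phi e (T n) =
(-1) ^ n * T (4 * sg e * n)`, so `phi e uu = -T (4 sg e) - 1 = T (2 sg e) * loopVal` and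
`phi e vv = -T (-4 sg e) - 1 = T (-2 sg e) * loopVal` (`loopVal = -(T 2 + T (-2))`). A term with `t A = true`:
`phi e (uu ^ (N A - 1) * vv ^ (|A| + N A - |V|)) = T (2 sg e ((N A - 1) - (|A| + N A - |V|))) * loopVal ^ (k A)`,
exponent of `T`: `2 sg e (|V| - 1 - |A|)`; times `T (sg e (n - 2 |V| + 2))` gives `T (sg e (n - 2 |A|))`. A term
with `t A = false` (then `N A ≥ 2`): `uu ^ (N A - 1 - 1)`, exponent `2 sg e (|V| - 2 - |A|)`; times
`T (sg e (n - 2 |V| + 4))`. (`nul ⊥ A = |A| + N A - |V|` with `|V| ≤ |A| + N A` by `nc_le_add_card`.) `R.powerset`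
for `R = univ` is `univ` (`Finset.powerset_univ`). -/
def St_PB : Prop := ∀ (w : Word) (hw : IsLeaf w) (e : Bool),
  (∀ (p : Bool) (i : ℕ), pX i p ∈ w → (p = e ↔ i % 2 = 0)) →
  HasPair w
    (T (sg e * ((nX w : ℤ) - 2 * Fintype.card (Reg true w) + 2)) *
      phi e ((gE w hw.ok).be ⊥ Finset.univ))
    (T (sg e * ((nX w : ℤ) - 2 * Fintype.card (Reg true w) + 4)) *
      phi e ((gE w hw.ok).al ⊥ Finset.univ))

end Pool.ALT
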