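import Mathlib
import Pool.Agent.ALT.Mo.St

/-! # ALT, block Mo: [PR] parity, the sign model (helper25) -/

set_option autoImplicit false

namespace Pool.ALT

open Pool.Agent.ARB Pool.Agent.Helper2

/-- the sign model -/
noncomputable def pr_S : Model ℤ ℤ where
  Supp _ _ := True
  δ := -1
  init := 1
  cup i := LinearMap.lsmul ℤ ℤ ((-1) ^ i)
  cap i := LinearMap.lsmul ℤ ℤ ((-1) ^ (i + 1))
  supp_init := trivial
  supp_cup _ _ _ _ _ := trivial
  supp_cap _ _ _ _ _ := trivial
  rel1 _ i ψ _ _ := by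
    simp only [LinearMap.lsmul_apply, smul_eq_mul]
    rw [← mul_assoc, ← pow_add, (show Odd (i + 1 + i) from ⟨i, by ring⟩).neg_one_pow]
  rel2 _ i ψ _ _ := by
    simp only [LinearMap.lsmul_apply, smul_eq_mul]
    rw [← mul_assoc, ← pow_add, (show Even (i + 1 + 1 + i) from ⟨i + 1, by ring⟩).neg_one_pow, one_mul]
  rel3 _ i ψ _ _ := by
    simp only [LinearMap.lsmul_apply, smul_eq_mul]
    rw [← mul_assoc, ← pow_add, (show Even (i + 1 + (i + 1)) from ⟨i + 1, rfl⟩).neg_one_pow, one_mul]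
  rel4 _ i k ψ _ _ := by
    simp only [LinearMap.lsmul_apply, smul_eq_mul]
    ring
  rel5 _ i k ψ _ _ := by
    simp only [LinearMap.lsmul_apply, smul_eq_mul]
    ring

theorem pr_cupcap (i : ℕ) (x : ℤ) : pr_S.cup i (pr_S.cap i x) = -x := by
  show ((-1 : ℤ) ^ i) * ((-1) ^ (i + 1) * x) = -x
  rw [← mul_assoc, ← pow_add, (show Odd (i + (i + 1)) from ⟨i, by ring⟩).neg_one_pow]
  ring

theorem pr_neg : ∀ (w : Word) (x : ℤ), runC pr_S w (-x) = -runC pr_S w x
  | [], _ => rfl
  | ⟨.U, i⟩ :: w, x => by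
      show runC pr_S w (pr_S.cup i (-x)) = -runC pr_S w (pr_S.cup i x)
      rw [map_neg, pr_neg w]
  | ⟨.N, i⟩ :: w, x => by
      show runC pr_S w (pr_S.cap i (-x)) = -runC pr_S w (pr_S.cap i x)
      rw [map_neg, pr_neg w]
  | ⟨.X _, _⟩ :: w, x => pr_neg w x

/-- one smoothing is changed -/
theorem pr_change : ∀ (w : Word) (B B' : ℕ → Bool) (e : ℕ), e < nX w → (∀ k, k ≠ e → B k = B' k) →
    B e ≠ B' e → ∀ x : ℤ, runC pr_S (jo B w) x = -runC pr_S (jo B' w) x
  | [], _, _, _, he, _, _, _ => absurd he (Nat.not_lt_zero _)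
  | ⟨.U, i⟩ :: w, B, B', e, he, h1, h2, x => pr_change w B B' e he h1 h2 (pr_S.cup i x)
  | ⟨.N, i⟩ :: w, B, B', e, he, h1, h2, x => pr_change w B B' e he h1 h2 (pr_S.cap i x)
  | ⟨.X p, i⟩ :: w, B, B', e, he, h1, h2, x => by
      show runC pr_S (if B 0 = decide (i % 2 = 0) then pN i :: pU i :: jo (fun k => B (k + 1)) w
        else jo (fun k => B (k + 1)) w) x =
        -runC pr_S (if B' 0 = decide (i % 2 = 0) then pN i :: pU i :: jo (fun k => B' (k + 1)) w
        else jo (fun k => B' (k + 1)) w) x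
      have hh : ∀ (u : Word), runC pr_S (pN i :: pU i :: u) x = -runC pr_S u x := by
        intro u
        show runC pr_S u (pr_S.cup i (pr_S.cap i x)) = -runC pr_S u x
        rw [pr_cupcap, pr_neg]
      rcases Nat.eq_zero_or_pos e with h0 | h0
      · subst h0
        have h3 : (fun k => B (k + 1)) = fun k => B' (k + 1) := by
          funext k
          exact h1 (k + 1) (by omega)
        rw [h3]
        by_cases h4 : B 0 = decide (i % 2 = 0)
        · have h5 : ¬ B' 0 = decide (i % 2 = 0) := fun h => h2 (h4.trans h.symm)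
          rw [if_pos h4, if_neg h5, hh]
        · have h5 : B' 0 = decide (i % 2 = 0) := by
            revert h4 h2
            generalize decide (i % 2 = 0) = c
            cases B 0 <;> cases B' 0 <;> cases c <;> simp
          rw [if_neg h4, if_pos h5, hh, neg_neg]
      · obtain ⟨e', rfl⟩ : ∃ e', e = e' + 1 := ⟨e - 1, by omega⟩
        have h3 := pr_change w (fun k => B (k + 1)) (fun k => B' (k + 1)) e'
          (Nat.lt_of_succ_lt_succ he) (fun k hk => h1 (k + 1) (by omega)) h2 x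
        have h4 : B 0 = B' 0 := h1 0 (by omega)
        rw [h4]
        split_ifs with h5
        · rw [hh, hh, h3]
        · exact h3

theorem pr_val {w : Word} {k : ℕ} {t : Bool} (h : Nf w k t) :
    runC pr_S w 1 = (-1) ^ (k + t.toNat) := by
  have h1 := h pr_S 0 2 1 (by norm_num) trivial
  rw [sh_zero] at h1
  rw [h1]
  cases t
  · show (-1 : ℤ) ^ k * 1 = (-1) ^ (k + 0)
    rw [mul_one, add_zero]
  · show (-1 : ℤ) ^ k * pr_S.cup 0 (pr_S.cap 0 1) = (-1) ^ (k + 1)
    rw [pr_cupcap, pow_succ]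

/-- [PR] -/
theorem thm_PR : St_PR := by
  intro w _ A e he k k' t t' hk hk'
  have h1 := pr_change w (seq A) (seq (insert e A)) e.val e.isLt ?_ ?_ 1
  · rw [pr_val hk, pr_val hk'] at h1
    rcases Nat.even_or_odd (k + t.toNat) with h2 | h2 <;>
      rcases Nat.even_or_odd (k' + t'.toNat) with h3 | h3
    · rw [h2.neg_one_pow, h3.neg_one_pow] at h1
      norm_num at h1
    · exact Nat.odd_iff.1 (h2.add_odd h3)
    · exact Nat.odd_iff.1 (h2.add_even h3)
    · rw [h2.neg_one_pow, h3.neg_one_pow] at h1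
      norm_num at h1
  · intro j hj
    unfold seq
    have h2 : (∃ h : j < nX w, (⟨j, h⟩ : Fin (nX w)) ∈ A) ↔
        ∃ h : j < nX w, (⟨j, h⟩ : Fin (nX w)) ∈ insert e A := by
      constructor
      · rintro ⟨h, h'⟩
        exact ⟨h, Finset.mem_insert_of_mem h'⟩
      · rintro ⟨h, h'⟩
        refine ⟨h, (Finset.mem_insert.1 h').resolve_left fun h3 => hj ?_⟩
        rw [← h3]
    exact decide_eq_decide.2 h2
  · unfold seq
    have h2 : ¬ ∃ h : e.val < nX w, (⟨e.val, h⟩ : Fin (nX w)) ∈ A := by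
      rintro ⟨_, h'⟩
      exact he h'
    have h3 : ∃ h : e.val < nX w, (⟨e.val, h⟩ : Fin (nX w)) ∈ insert e A :=
      ⟨e.isLt, Finset.mem_insert_self _ _⟩
    rw [decide_eq_false h2, decide_eq_true h3]
    decide

end Pool.ALT
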