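import Pool.Agent.ALT.Mo.St

/-! # ALT, block Mo: the model of region colourings (helper9) -/

set_option autoImplicit false

namespace Pool.ALT

open LaurentPolynomial Pool.Agent.ARB Pool.Agent.Helper2

/-- the cup -/
def rm_cup (i : ℕ) : ((ℕ → Bool) → ℤ) →ₗ[ℤ] ((ℕ → Bool) → ℤ) where
  toFun ψ := fun c => if c i = c (i + 2) then ψ (dl i c) else 0
  map_add' ψ φ := by
    funext c
    show (if c i = c (i + 2) then ψ (dl i c) + φ (dl i c) else 0) =
      (if c i = c (i + 2) then ψ (dl i c) else 0) + (if c i = c (i + 2) then φ (dl i c) else 0)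
    split_ifs
    · rfl
    · rfl
  map_smul' a ψ := by
    funext c
    show (if c i = c (i + 2) then a * ψ (dl i c) else 0) =
      a * (if c i = c (i + 2) then ψ (dl i c) else 0)
    split_ifs
    · rfl
    · rw [mul_zero]

/-- the cap -/
def rm_cap (i : ℕ) : ((ℕ → Bool) → ℤ) →ₗ[ℤ] ((ℕ → Bool) → ℤ) where
  toFun ψ := fun c => ψ (ins i true c) + ψ (ins i false c)
  map_add' ψ φ := by
    funext c
    show ψ (ins i true c) + φ (ins i true c) + (ψ (ins i false c) + φ (ins i false c)) =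
      ψ (ins i true c) + ψ (ins i false c) + (φ (ins i true c) + φ (ins i false c))
    ring
  map_smul' a ψ := by
    funext c
    show a * ψ (ins i true c) + a * ψ (ins i false c) = a * (ψ (ins i true c) + ψ (ins i false c))
    ring

theorem rm_cup_apply (i : ℕ) (ψ : (ℕ → Bool) → ℤ) (c : ℕ → Bool) :
    rm_cup i ψ c = if c i = c (i + 2) then ψ (dl i c) else 0 := rfl

theorem rm_cap_apply (i : ℕ) (ψ : (ℕ → Bool) → ℤ) (c : ℕ → Bool) :
    rm_cap i ψ c = ψ (ins i true c) + ψ (ins i false c) := rfl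

theorem rm_ins_le {i j : ℕ} (b : Bool) (c : ℕ → Bool) (h : j ≤ i) : ins i b c j = c j := by
  unfold ins
  rw [if_pos h]

theorem rm_ins_eq {i j : ℕ} (b : Bool) (c : ℕ → Bool) (h : j = i + 1) : ins i b c j = b := by
  unfold ins
  rw [if_neg (by omega), if_pos h]

theorem rm_ins_gt {i j : ℕ} (b : Bool) (c : ℕ → Bool) (h : i + 2 ≤ j) :
    ins i b c j = c (j - 2) := by
  unfold ins
  rw [if_neg (by omega), if_neg (by omega)]

theorem rm_dl_le {i j : ℕ} (c : ℕ → Bool) (h : j ≤ i) : dl i c j = c j := by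
  unfold dl
  rw [if_pos h]

theorem rm_dl_gt {i j : ℕ} (c : ℕ → Bool) (h : i < j) : dl i c j = c (j + 2) := by
  unfold dl
  rw [if_neg (by omega)]

theorem rm_rel1 (i : ℕ) (ψ : (ℕ → Bool) → ℤ) : rm_cap i (rm_cup i ψ) = (2 : ℤ) • ψ := by
  funext c
  have h1 : ∀ b, rm_cup i ψ (ins i b c) = ψ c := by
    intro b
    have e1 : ins i b c (i + 2) = c i := by
      rw [rm_ins_gt b c le_rfl]
      rfl
    have e2 : dl i (ins i b c) = c := by
      funext j
      rcases Nat.lt_or_ge i j with h | h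
      · rw [rm_dl_gt _ h, rm_ins_gt b c (by omega)]
        rfl
      · rw [rm_dl_le _ h, rm_ins_le b c h]
    rw [rm_cup_apply, rm_ins_le b c le_rfl, e1, if_pos rfl, e2]
  rw [rm_cap_apply, h1, h1]
  show ψ c + ψ c = 2 * ψ c
  ring

theorem rm_rel2 (i : ℕ) (ψ : (ℕ → Bool) → ℤ) : rm_cap (i + 1) (rm_cup i ψ) = ψ := by
  funext c
  have h1 : ∀ b, rm_cup i ψ (ins (i + 1) b c) = if c i = b then ψ c else 0 := by
    intro b
    have e1 : ins (i + 1) b c (i + 2) = b := rm_ins_eq b c rfl
    have e2 : dl i (ins (i + 1) b c) = c := by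
      funext j
      rcases Nat.lt_or_ge i j with h | h
      · rw [rm_dl_gt _ h, rm_ins_gt b c (by omega)]
        rfl
      · rw [rm_dl_le _ h, rm_ins_le b c (by omega)]
    rw [rm_cup_apply, rm_ins_le b c (by omega), e1, e2]
  rw [rm_cap_apply, h1, h1]
  cases c i <;> simp

theorem rm_rel3 (i : ℕ) (ψ : (ℕ → Bool) → ℤ) : rm_cap i (rm_cup (i + 1) ψ) = ψ := by
  funext c
  have h1 : ∀ b, rm_cup (i + 1) ψ (ins i b c) = if b = c (i + 1) then ψ c else 0 := by
    intro b
    have e0 : ins i b c (i + 1) = b := rm_ins_eq b c rfl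
    have e1 : ins i b c (i + 1 + 2) = c (i + 1) := by
      rw [rm_ins_gt b c (by omega)]
      rfl
    rw [rm_cup_apply, e0, e1]
    by_cases hb : b = c (i + 1)
    · have e2 : dl (i + 1) (ins i b c) = c := by
        funext j
        rcases Nat.lt_or_ge (i + 1) j with h | h
        · rw [rm_dl_gt _ h, rm_ins_gt b c (by omega)]
          rfl
        · rw [rm_dl_le _ h]
          rcases Nat.lt_or_ge i j with h' | h'
          · have hj : j = i + 1 := by omega
            subst hj
            rw [e0, hb]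
          · rw [rm_ins_le b c h']
      rw [if_pos hb, if_pos hb, e2]
    · rw [if_neg hb, if_neg hb]
  rw [rm_cap_apply, h1, h1]
  cases c (i + 1) <;> simp

theorem rm_rel4 (i k : ℕ) (ψ : (ℕ → Bool) → ℤ) :
    rm_cap (i + k + 2) (rm_cup i ψ) = rm_cup i (rm_cap (i + k) ψ) := by
  funext c
  have h1 : ∀ b, rm_cup i ψ (ins (i + k + 2) b c) =
      if c i = c (i + 2) then ψ (ins (i + k) b (dl i c)) else 0 := by
    intro b
    rw [rm_cup_apply, rm_ins_le b c (by omega), rm_ins_le b c (by omega)]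
    by_cases hc : c i = c (i + 2)
    · have e2 : dl i (ins (i + k + 2) b c) = ins (i + k) b (dl i c) := by
        funext j
        rcases Nat.lt_or_ge i j with h | h
        · rw [rm_dl_gt _ h]
          rcases Nat.lt_trichotomy j (i + k + 1) with h' | h' | h'
          · rw [rm_ins_le b c (by omega), rm_ins_le b _ (by omega), rm_dl_gt _ h]
          · rw [rm_ins_eq b c (by omega), rm_ins_eq b _ (by omega)]
          · rw [rm_ins_gt b c (by omega), rm_ins_gt b _ (by omega)]
            rcases Nat.lt_or_ge i (j - 2) with h'' | h''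
            · rw [rm_dl_gt _ h'', show j + 2 - 2 = j - 2 + 2 by omega]
            · rw [rm_dl_le _ h'', show j - 2 = i by omega, show j + 2 - 2 = i + 2 by omega, hc]
        · rw [rm_dl_le _ h, rm_ins_le b c (by omega), rm_ins_le b _ (by omega), rm_dl_le _ h]
      rw [if_pos hc, if_pos hc, e2]
    · rw [if_neg hc, if_neg hc]
  rw [rm_cap_apply, h1, h1, rm_cup_apply, rm_cap_apply]
  split_ifs
  · rfl
  · rfl

theorem rm_rel5 (i k : ℕ) (ψ : (ℕ → Bool) → ℤ) :
    rm_cap i (rm_cup (i + k + 2) ψ) = rm_cup (i + k) (rm_cap i ψ) := by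
  funext c
  have h1 : ∀ b, rm_cup (i + k + 2) ψ (ins i b c) =
      if c (i + k) = c (i + k + 2) then ψ (ins i b (dl (i + k) c)) else 0 := by
    intro b
    have e0 : ins i b c (i + k + 2) = c (i + k) := by
      rw [rm_ins_gt b c (by omega)]
      rfl
    have e1 : ins i b c (i + k + 2 + 2) = c (i + k + 2) := by
      rw [rm_ins_gt b c (by omega)]
      rfl
    have e2 : dl (i + k + 2) (ins i b c) = ins i b (dl (i + k) c) := by
      funext j
      rcases Nat.lt_or_ge (i + k + 2) j with h | h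
      · rw [rm_dl_gt _ h, rm_ins_gt b c (by omega), rm_ins_gt b _ (by omega), rm_dl_gt _ (by omega),
          show j + 2 - 2 = j - 2 + 2 by omega]
      · rw [rm_dl_le _ h]
        rcases Nat.lt_trichotomy j (i + 1) with h' | h' | h'
        · rw [rm_ins_le b c (by omega), rm_ins_le b _ (by omega), rm_dl_le _ (by omega)]
        · rw [rm_ins_eq b c h', rm_ins_eq b _ h']
        · rw [rm_ins_gt b c (by omega), rm_ins_gt b _ (by omega), rm_dl_le _ (by omega)]
    rw [rm_cup_apply, e0, e1, e2]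
  rw [rm_cap_apply, h1, h1, rm_cup_apply, rm_cap_apply]
  split_ifs
  · rfl
  · rfl

/-- the model of region colourings -/
def rm_model : Model ℤ ((ℕ → Bool) → ℤ) where
  Supp _ _ := True
  δ := 2
  init := fun _ => 1
  cup := rm_cup
  cap := rm_cap
  supp_init := trivial
  supp_cup _ _ _ _ _ := trivial
  supp_cap _ _ _ _ _ := trivial
  rel1 _ i ψ _ _ := rm_rel1 i ψ
  rel2 _ i ψ _ _ := rm_rel2 i ψ
  rel3 _ i ψ _ _ := rm_rel3 i ψ
  rel4 _ i k ψ _ _ := rm_rel4 i k ψ
  rel5 _ i k ψ _ _ := rm_rel5 i k ψ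

theorem thm_RM : St_RM :=
  ⟨rm_model, rfl, fun _ _ => trivial, fun _ _ _ => rfl, fun _ _ _ => rfl⟩

end Pool.ALT
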