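import Pool.Agent.ALT.Mo.St

/-! # ALT-Mo [SJ]: states of alternating words -/

set_option autoImplicit false

namespace Pool.ALT

open LaurentPolynomial Pool.Agent.ARB Pool.Agent.Helper2

private theorem sj_aux : ∀ (e : Bool) (w : Word) (a : ℕ → Bool),
    (∀ (p : Bool) (i : ℕ), pX i p ∈ w → (p = e ↔ i % 2 = 0)) →
    state a w = jo (fun k => xor (a k) e) w
  | _, [], _, _ => rfl
  | e, ⟨.U, i⟩ :: w, a, h => by
      show pU i :: state a w = pU i :: jo (fun k => xor (a k) e) w
      rw [sj_aux e w a fun p j hj => h p j (List.mem_cons_of_mem _ hj)]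
  | e, ⟨.N, i⟩ :: w, a, h => by
      show pN i :: state a w = pN i :: jo (fun k => xor (a k) e) w
      rw [sj_aux e w a fun p j hj => h p j (List.mem_cons_of_mem _ hj)]
  | e, ⟨.X p, i⟩ :: w, a, h => by
      have h1 := sj_aux e w (fun k => a (k + 1)) fun p j hj =>
        h p j (List.mem_cons_of_mem _ hj)
      have h2 : p = e ↔ i % 2 = 0 := h p i List.mem_cons_self
      show (if a 0 = p then state (fun k => a (k + 1)) w
        else pN i :: pU i :: state (fun k => a (k + 1)) w) =
        (if xor (a 0) e = decide (i % 2 = 0) then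
          pN i :: pU i :: jo (fun k => xor (a (k + 1)) e) w
        else jo (fun k => xor (a (k + 1)) e) w)
      rw [h1]
      have h3 : (xor (a 0) e = decide (i % 2 = 0)) ↔ ¬ (a 0 = p) := by
        rw [show decide (i % 2 = 0) = decide (p = e) from decide_eq_decide.2 h2.symm]
        generalize a 0 = b
        cases b <;> cases p <;> cases e <;> decide
      by_cases h4 : a 0 = p
      · rw [if_pos h4, if_neg (fun h => (h3.1 h) h4)]
      · rw [if_neg h4, if_pos (h3.2 h4)]

theorem thm_SJ : St_SJ := sj_aux

end Pool.ALT
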