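import Pool.Agent.ALT.Mo.St

/-! # ALT, block Mo, module TC: the colourings of a word, one piece removed -/

set_option autoImplicit false

namespace Pool.ALT

open LaurentPolynomial Pool.Agent.ARB Pool.Agent.Helper2

/-- the colouring of the local regions of `s :: w` -/
private def tc_F (s : Piece) (w : Word) (n : ℕ) (c : Fin (n + 1) → Bool)
    (f : Loc (n - s.k.inn + s.k.out) w → Bool) : Loc n (s :: w) → Bool :=
  fun x => Sum.elim c f (show Fin (n + 1) ⊕ Loc (n - s.k.inn + s.k.out) w from x)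

private theorem tc_R (s : Piece) (w : Word) (n : ℕ) (c : Fin (n + 1) → Bool)
    (f : Loc (n - s.k.inn + s.k.out) w → Bool) :
    (∀ x y, R0 n (s :: w) x y → tc_F s w n c f x = tc_F s w n c f y) ↔
      (∀ j j' : ℕ, j ≤ n → j' ≤ n - s.k.inn + s.k.out → gl s j j' →
        c (Fin.ofNat (n + 1) j) = f (bo (n - s.k.inn + s.k.out) w j')) ∧
      ∀ x' y', R0 (n - s.k.inn + s.k.out) w x' y' → f x' = f y' := by
  constructor
  · intro h
    exact ⟨fun j j' hj hj' hg => h _ _ (Or.inl ⟨j, j', hj, hj', hg, rfl, rfl⟩),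
      fun x' y' hr => h _ _ (Or.inr ⟨x', y', rfl, rfl, hr⟩)⟩
  · rintro ⟨h1, h2⟩ x y (⟨j, j', hj, hj', hg, rfl, rfl⟩ | ⟨x', y', rfl, rfl, hr⟩)
    · exact h1 j j' hj hj' hg
    · exact h2 x' y' hr

theorem thm_TC : St_TC := by
  intro B s w n m hok c f
  have hR := tc_R s w n c f
  obtain ⟨k, i⟩ := s
  have hi : i + k.inn ≤ n := hok.1
  show ((∀ x y, R0 n (⟨k, i⟩ :: w) x y → tc_F ⟨k, i⟩ w n c f x = tc_F ⟨k, i⟩ w n c f y) ∧ _) ↔ _
  rw [hR]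
  cases k with
  | U =>
    have e1 : (fun k => B (k + (if (Kind.U : Kind) = .U ∨ (Kind.U : Kind) = .N then 0 else 1))) =
        B := by
      funext k
      simp
    show ((∀ j j' : ℕ, j ≤ n → j' ≤ n - 0 + 2 → gl ⟨.U, i⟩ j j' →
        c (Fin.ofNat (n + 1) j) = f (bo (n - 0 + 2) w j')) ∧
      ∀ x' y', R0 (n - 0 + 2) w x' y' → f x' = f y') ∧
      (∀ k : Fin (nX w), f (ed (B k) (n - 0 + 2) w k).1 = f (ed (B k) (n - 0 + 2) w k).2) ↔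
      ((∀ j ≤ i, c (Fin.ofNat (n + 1) j) = f (bo (n - 0 + 2) w j)) ∧
        ∀ j, i ≤ j → j ≤ n → c (Fin.ofNat (n + 1) j) = f (bo (n - 0 + 2) w (j + 2))) ∧
      Cp (fun k => B (k + (if (Kind.U : Kind) = .U ∨ (Kind.U : Kind) = .N then 0 else 1)))
        (n - 0 + 2) w f
    rw [e1]
    have hi' : i ≤ n := hi
    constructor
    · rintro ⟨⟨h1, h2⟩, h3⟩
      exact ⟨⟨fun j hj => h1 j j (by omega) (by omega) (Or.inl ⟨hj, rfl⟩),
        fun j hj hj' => h1 j (j + 2) hj' (by omega) (Or.inr ⟨hj, rfl⟩)⟩, h2, h3⟩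
    · rintro ⟨⟨h1, h2⟩, h3, h4⟩
      refine ⟨⟨?_, h3⟩, h4⟩
      intro j j' hj hj' hg
      rcases hg with ⟨h5, rfl⟩ | ⟨h5, rfl⟩
      · exact h1 _ h5
      · exact h2 _ h5 hj
  | N =>
    have e1 : (fun k => B (k + (if (Kind.N : Kind) = .U ∨ (Kind.N : Kind) = .N then 0 else 1))) =
        B := by
      funext k
      simp
    show ((∀ j j' : ℕ, j ≤ n → j' ≤ n - 2 + 0 → gl ⟨.N, i⟩ j j' →
        c (Fin.ofNat (n + 1) j) = f (bo (n - 2 + 0) w j')) ∧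
      ∀ x' y', R0 (n - 2 + 0) w x' y' → f x' = f y') ∧
      (∀ k : Fin (nX w), f (ed (B k) (n - 2 + 0) w k).1 = f (ed (B k) (n - 2 + 0) w k).2) ↔
      ((∀ j ≤ i, c (Fin.ofNat (n + 1) j) = f (bo (n - 2 + 0) w j)) ∧
        ∀ j, i ≤ j → j + 2 ≤ n → c (Fin.ofNat (n + 1) (j + 2)) = f (bo (n - 2 + 0) w j)) ∧
      Cp (fun k => B (k + (if (Kind.N : Kind) = .U ∨ (Kind.N : Kind) = .N then 0 else 1)))
        (n - 2 + 0) w f
    rw [e1]
    have hi' : i + 2 ≤ n := hi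
    constructor
    · rintro ⟨⟨h1, h2⟩, h3⟩
      exact ⟨⟨fun j hj => h1 j j (by omega) (by omega) (Or.inl ⟨hj, rfl⟩),
        fun j hj hj' => h1 (j + 2) j hj' (by omega) (Or.inr ⟨hj, rfl⟩)⟩, h2, h3⟩
    · rintro ⟨⟨h1, h2⟩, h3, h4⟩
      refine ⟨⟨?_, h3⟩, h4⟩
      intro j j' hj hj' hg
      rcases hg with ⟨h5, rfl⟩ | ⟨h5, rfl⟩
      · exact h1 _ h5
      · exact h2 _ h5 hj
  | X p =>
    have e1 : (fun k => B (k + (if (Kind.X p : Kind) = .U ∨ (Kind.X p : Kind) = .N then 0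
        else 1))) = fun k => B (k + 1) := by
      funext k
      simp
    have hi' : i + 2 ≤ n := hi
    have e2 : (∀ k : Fin (nX (⟨.X p, i⟩ :: w)),
        tc_F ⟨.X p, i⟩ w n c f (ed (B k) n (⟨.X p, i⟩ :: w) k).1 =
          tc_F ⟨.X p, i⟩ w n c f (ed (B k) n (⟨.X p, i⟩ :: w) k).2) ↔
        ((if B 0 = decide (i % 2 = 0) then
          c (Fin.ofNat (n + 1) i) = c (Fin.ofNat (n + 1) (i + 2))
          else c (Fin.ofNat (n + 1) (i + 1)) = f (bo (n - 2 + 2) w (i + 1))) ∧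
        ∀ k : Fin (nX w), f (ed (B (k + 1)) (n - 2 + 2) w k).1 =
          f (ed (B (k + 1)) (n - 2 + 2) w k).2) := by
      have e3 : (∀ k : Fin (nX (⟨.X p, i⟩ :: w)),
        tc_F ⟨.X p, i⟩ w n c f (ed (B k) n (⟨.X p, i⟩ :: w) k).1 =
          tc_F ⟨.X p, i⟩ w n c f (ed (B k) n (⟨.X p, i⟩ :: w) k).2) ↔
        ∀ k : Fin (nX w + 1),
        tc_F ⟨.X p, i⟩ w n c f (ed (B k) n (⟨.X p, i⟩ :: w) k).1 =
          tc_F ⟨.X p, i⟩ w n c f (ed (B k) n (⟨.X p, i⟩ :: w) k).2 := Iff.rfl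
      rw [e3, Fin.forall_fin_succ]
      refine and_congr ?_ Iff.rfl
      show (tc_F ⟨.X p, i⟩ w n c f (if decide (i % 2 = 0) = B 0 then
          (bo n (⟨.X p, i⟩ :: w) i, bo n (⟨.X p, i⟩ :: w) (i + 2))
          else (bo n (⟨.X p, i⟩ :: w) (i + 1), Sum.inr (bo (n - 2 + 2) w (i + 1)))).1 =
        tc_F ⟨.X p, i⟩ w n c f (if decide (i % 2 = 0) = B 0 then
          (bo n (⟨.X p, i⟩ :: w) i, bo n (⟨.X p, i⟩ :: w) (i + 2))
          else (bo n (⟨.X p, i⟩ :: w) (i + 1), Sum.inr (bo (n - 2 + 2) w (i + 1)))).2) ↔ _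
      by_cases h : B 0 = decide (i % 2 = 0)
      · rw [if_pos h, if_pos h.symm]
        exact Iff.rfl
      · rw [if_neg h, if_neg (fun h' => h h'.symm)]
        exact Iff.rfl
    show ((∀ j j' : ℕ, j ≤ n → j' ≤ n - 2 + 2 → gl ⟨.X p, i⟩ j j' →
        c (Fin.ofNat (n + 1) j) = f (bo (n - 2 + 2) w j')) ∧
      ∀ x' y', R0 (n - 2 + 2) w x' y' → f x' = f y') ∧
      (∀ k : Fin (nX (⟨.X p, i⟩ :: w)),
        tc_F ⟨.X p, i⟩ w n c f (ed (B k) n (⟨.X p, i⟩ :: w) k).1 =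
          tc_F ⟨.X p, i⟩ w n c f (ed (B k) n (⟨.X p, i⟩ :: w) k).2) ↔
      ((∀ j ≤ n, j ≠ i + 1 → c (Fin.ofNat (n + 1) j) = f (bo (n - 2 + 2) w j)) ∧
        (if B 0 = decide (i % 2 = 0) then
          c (Fin.ofNat (n + 1) i) = c (Fin.ofNat (n + 1) (i + 2))
          else c (Fin.ofNat (n + 1) (i + 1)) = f (bo (n - 2 + 2) w (i + 1)))) ∧
      Cp (fun k => B (k + (if (Kind.X p : Kind) = .U ∨ (Kind.X p : Kind) = .N then 0 else 1)))
        (n - 2 + 2) w f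
    rw [e1, e2]
    constructor
    · rintro ⟨⟨h1, h2⟩, h3, h4⟩
      exact ⟨⟨fun j hj hj' => h1 j j hj (by omega) ⟨rfl, hj'⟩, h3⟩, h2, h4⟩
    · rintro ⟨⟨h1, h2⟩, h3, h4⟩
      refine ⟨⟨?_, h3⟩, h2, h4⟩
      intro j j' hj hj' hg
      obtain ⟨rfl, h5⟩ := hg
      exact h1 _ hj h5

end Pool.ALT
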