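import Pool.Agent.ALT.Mo.St

/-! # ALT, block Mo, module TP: the operator of one piece on colourings -/

set_option autoImplicit false

namespace Pool.ALT

open LaurentPolynomial Pool.Agent.ARB Pool.Agent.Helper2

private theorem TP_ofv {n j : ℕ} (h : j ≤ n) : (Fin.ofNat (n + 1) j).val = j := by
  rw [Fin.val_ofNat]
  exact Nat.mod_eq_of_lt (by omega)

private theorem TP_rs {n : ℕ} (c : Fin (n + 1) → Bool) (d : ℕ → Bool) :
    c = (fun j => d j.val) ↔ ∀ j ≤ n, c (Fin.ofNat (n + 1) j) = d j := by
  constructor
  · rintro rfl j hj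
    show d (Fin.ofNat (n + 1) j).val = d j
    rw [TP_ofv hj]
  · intro h
    funext j
    have h1 := h j.val (by omega)
    rwa [show Fin.ofNat (n + 1) j.val = j from Fin.ext (TP_ofv (by omega))] at h1

private theorem TP_ps {n : ℕ} {ψ : (ℕ → Bool) → ℤ} (h : Dep n ψ) (d : ℕ → Bool) :
    ψ (fun j => d (Fin.ofNat (n + 1) j).val) = ψ d :=
  h _ _ fun j hj => by rw [TP_ofv hj]

open Classical in
private theorem TP_one {n : ℕ} {ψ : (ℕ → Bool) → ℤ} (h : Dep n ψ) (d : ℕ → Bool)
    (P : (ℕ → Bool) → Prop) (hP : ∀ c : Fin (n + 1) → Bool,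
      P (fun j => c (Fin.ofNat (n + 1) j)) ↔ ∀ j ≤ n, c (Fin.ofNat (n + 1) j) = d j) :
    ψ d = ∑ c : Fin (n + 1) → Bool with P (fun j => c (Fin.ofNat (n + 1) j)),
      ψ (fun j => c (Fin.ofNat (n + 1) j)) := by
  have h1 : (Finset.univ.filter fun c : Fin (n + 1) → Bool =>
      P (fun j => c (Fin.ofNat (n + 1) j))) = {fun j => d j.val} := by
    ext c
    rw [Finset.mem_filter, Finset.mem_singleton, hP, TP_rs]
    exact and_iff_right (Finset.mem_univ _)
  rw [h1, Finset.sum_singleton]
  exact (TP_ps h d).symm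

open Classical in
private theorem TP_two {n : ℕ} {ψ : (ℕ → Bool) → ℤ} (h : Dep n ψ) (d e : ℕ → Bool) (i : ℕ)
    (hi : i ≤ n) (hde : d i ≠ e i)
    (P : (ℕ → Bool) → Prop) (hP : ∀ c : Fin (n + 1) → Bool,
      P (fun j => c (Fin.ofNat (n + 1) j)) ↔ (∀ j ≤ n, c (Fin.ofNat (n + 1) j) = d j) ∨
        ∀ j ≤ n, c (Fin.ofNat (n + 1) j) = e j) :
    ψ d + ψ e = ∑ c : Fin (n + 1) → Bool with P (fun j => c (Fin.ofNat (n + 1) j)),
      ψ (fun j => c (Fin.ofNat (n + 1) j)) := by
  have h1 : (Finset.univ.filter fun c : Fin (n + 1) → Bool =>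
      P (fun j => c (Fin.ofNat (n + 1) j))) = {fun j => d j.val, fun j => e j.val} := by
    ext c
    rw [Finset.mem_filter, Finset.mem_insert, Finset.mem_singleton, hP, TP_rs, TP_rs]
    exact and_iff_right (Finset.mem_univ _)
  have h2 : (fun j : Fin (n + 1) => d j.val) ≠ fun j => e j.val := by
    intro h3
    apply hde
    have h4 := congrFun h3 (Fin.ofNat (n + 1) i)
    simp only [TP_ofv hi] at h4
    exact h4
  rw [h1, Finset.sum_pair h2]
  exact congrArg₂ (· + ·) (TP_ps h d).symm (TP_ps h e).symm

open Classical in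
private theorem TP_none {n : ℕ} {ψ : (ℕ → Bool) → ℤ}
    (P : (ℕ → Bool) → Prop) (hP : ∀ c : Fin (n + 1) → Bool,
      ¬ P (fun j => c (Fin.ofNat (n + 1) j))) :
    0 = ∑ c : Fin (n + 1) → Bool with P (fun j => c (Fin.ofNat (n + 1) j)),
      ψ (fun j => c (Fin.ofNat (n + 1) j)) := by
  rw [Finset.filter_false_of_mem fun c _ => hP c, Finset.sum_empty]

private theorem TP_dcup {M : Model ℤ ((ℕ → Bool) → ℤ)} (hM : RMod M) {n i : ℕ} (hi : i ≤ n)
    {ψ : (ℕ → Bool) → ℤ} (h : Dep n ψ) : Dep (n + 2) (M.cup i ψ) := by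
  intro c c' hc
  rw [hM.cup, hM.cup, hc i (by omega), hc (i + 2) (by omega)]
  rw [h (dl i c) (dl i c') fun j hj => ?_]
  unfold dl
  split_ifs
  · exact hc j (by omega)
  · exact hc (j + 2) (by omega)

private theorem TP_dcap {M : Model ℤ ((ℕ → Bool) → ℤ)} (hM : RMod M) {n i : ℕ} (hi : i + 2 ≤ n)
    {ψ : (ℕ → Bool) → ℤ} (h : Dep n ψ) : Dep (n - 2) (M.cap i ψ) := by
  intro c c' hc
  have h1 : ∀ b : Bool, ψ (ins i b c) = ψ (ins i b c') := fun b => h _ _ fun j hj => by
    unfold ins
    split_ifs
    · exact hc j (by omega)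
    · rfl
    · exact hc (j - 2) (by omega)
  rw [hM.cap, hM.cap, h1, h1]

private theorem TP_dep {M : Model ℤ ((ℕ → Bool) → ℤ)} (hM : RMod M) (b : Bool) (s : Piece) (n : ℕ)
    (ψ : (ℕ → Bool) → ℤ) (hn : s.i + s.k.inn ≤ n) (h : Dep n ψ) :
    Dep (n - s.k.inn + s.k.out) (pop M b s ψ) := by
  obtain ⟨k, i⟩ := s
  cases k with
  | U =>
      have hn' : i ≤ n := hn
      exact TP_dcup hM hn' h
  | N =>
      have hn' : i + 2 ≤ n := hn
      exact TP_dcap hM hn' h
  | X p =>
      have hn' : i + 2 ≤ n := hn
      show Dep (n - 2 + 2) (if b = decide (i % 2 = 0) then M.cup i (M.cap i ψ) else ψ)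
      split_ifs
      · exact TP_dcup hM (by omega) (TP_dcap hM hn' h)
      · rw [show n - 2 + 2 = n by omega]
        exact h

theorem thm_TP : St_TP := by
  classical
  intro M hM b s n ψ c' hn h
  refine ⟨TP_dep hM b s n ψ hn h, ?_⟩
  obtain ⟨k, i⟩ := s
  cases k with
  | U =>
      have hn' : i ≤ n := hn
      show M.cup i ψ c' = _
      rw [hM.cup]
      split_ifs with hc
      · refine TP_one h (dl i c') (fun c => PC b ⟨.U, i⟩ n c c') fun c => ?_
        show ((∀ j ≤ i, c (Fin.ofNat (n + 1) j) = c' j) ∧
          ∀ j, i ≤ j → j ≤ n → c (Fin.ofNat (n + 1) j) = c' (j + 2)) ↔ _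
        constructor
        · rintro ⟨h1, h2⟩ j hj
          unfold dl
          split_ifs with hji
          · exact h1 j hji
          · exact h2 j (by omega) hj
        · intro h1
          refine ⟨fun j hj => ?_, fun j hij hj => ?_⟩
          · rw [h1 j (by omega), dl, if_pos hj]
          · rw [h1 j hj, dl]
            split_ifs with hji
            · rw [show j = i by omega, hc]
            · rfl
      · refine TP_none (fun c => PC b ⟨.U, i⟩ n c c') fun c => ?_
        rintro ⟨h1, h2⟩
        exact hc ((h1 i le_rfl).symm.trans (h2 i le_rfl hn'))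
  | N =>
      have hn' : i + 2 ≤ n := hn
      show M.cap i ψ c' = _
      rw [hM.cap]
      refine TP_two h (ins i true c') (ins i false c') (i + 1) (by omega) ?_
        (fun c => PC b ⟨.N, i⟩ n c c') fun c => ?_
      · simp [ins]
      show ((∀ j ≤ i, c (Fin.ofNat (n + 1) j) = c' j) ∧
          ∀ j, i ≤ j → j + 2 ≤ n → c (Fin.ofNat (n + 1) (j + 2)) = c' j) ↔ _
      have key : ∀ b : Bool, (∀ j ≤ n, c (Fin.ofNat (n + 1) j) = ins i b c' j) →
          ((∀ j ≤ i, c (Fin.ofNat (n + 1) j) = c' j) ∧
          ∀ j, i ≤ j → j + 2 ≤ n → c (Fin.ofNat (n + 1) (j + 2)) = c' j) := by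
        intro b h1
        refine ⟨fun j hj => ?_, fun j hij hj => ?_⟩
        · rw [h1 j (by omega), ins, if_pos hj]
        · rw [h1 (j + 2) (by omega), ins, if_neg (by omega), if_neg (by omega)]
          rfl
      constructor
      · rintro ⟨h1, h2⟩
        have h3 : ∀ j ≤ n, c (Fin.ofNat (n + 1) j) =
            ins i (c (Fin.ofNat (n + 1) (i + 1))) c' j := by
          intro j hj
          unfold ins
          split_ifs with hji hj1
          · exact h1 j hji
          · rw [hj1]
          · have h4 := h2 (j - 2) (by omega) (by omega)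
            rwa [show j - 2 + 2 = j by omega] at h4
        cases hb : c (Fin.ofNat (n + 1) (i + 1))
        · right
          rw [hb] at h3
          exact h3
        · left
          rw [hb] at h3
          exact h3
      · rintro (h1 | h1)
        · exact key _ h1
        · exact key _ h1
  | X p =>
      have hn' : i + 2 ≤ n := hn
      show (if b = decide (i % 2 = 0) then M.cup i (M.cap i ψ) else ψ) c' = _
      by_cases hb : b = decide (i % 2 = 0)
      · have hPC : ∀ c : ℕ → Bool, PC b ⟨.X p, i⟩ n c c' ↔
            ((∀ j ≤ n, j ≠ i + 1 → c j = c' j) ∧ c i = c (i + 2)) := by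
          intro c
          show ((∀ j ≤ n, j ≠ i + 1 → c j = c' j) ∧
            (if b = decide (i % 2 = 0) then c i = c (i + 2) else c (i + 1) = c' (i + 1))) ↔ _
          rw [if_pos hb]
        rw [if_pos hb, hM.cup]
        split_ifs with hc
        · rw [hM.cap]
          refine TP_two h (ins i true (dl i c')) (ins i false (dl i c')) (i + 1) (by omega) ?_
            (fun c => PC b ⟨.X p, i⟩ n c c') fun c => ?_
          · simp [ins]
          rw [hPC]
          have hval : ∀ (b : Bool) (j : ℕ), ins i b (dl i c') j = if j = i + 1 then b else c' j := by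
            intro b j
            unfold ins dl
            split_ifs with h1 h2 h2 h3
            · omega
            · rfl
            · rfl
            · rw [show j = i + 2 by omega]
              exact hc
            · rw [show j - 2 + 2 = j by omega]
          have key : ∀ b : Bool, (∀ j ≤ n, c (Fin.ofNat (n + 1) j) = ins i b (dl i c') j) →
              ((∀ j ≤ n, j ≠ i + 1 → c (Fin.ofNat (n + 1) j) = c' j) ∧
                c (Fin.ofNat (n + 1) i) = c (Fin.ofNat (n + 1) (i + 2))) := by
            intro b h1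
            refine ⟨fun j hj hj1 => ?_, ?_⟩
            · rw [h1 j hj, hval, if_neg hj1]
            · rw [h1 i (by omega), h1 (i + 2) (by omega), hval, hval, if_neg (by omega),
                if_neg (by omega)]
              exact hc
          constructor
          · rintro ⟨h1, h2⟩
            have h3 : ∀ j ≤ n, c (Fin.ofNat (n + 1) j) =
                ins i (c (Fin.ofNat (n + 1) (i + 1))) (dl i c') j := by
              intro j hj
              rw [hval]
              split_ifs with hj1
              · rw [hj1]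
              · exact h1 j hj hj1
            cases hb : c (Fin.ofNat (n + 1) (i + 1))
            · right
              rw [hb] at h3
              exact h3
            · left
              rw [hb] at h3
              exact h3
          · rintro (h1 | h1)
            · exact key _ h1
            · exact key _ h1
        · refine TP_none (fun c => PC b ⟨.X p, i⟩ n c c') fun c => ?_
          rw [hPC]
          rintro ⟨h1, h2⟩
          exact hc ((h1 i (by omega) (by omega)).symm.trans
            (h2.trans (h1 (i + 2) (by omega) (by omega))))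
      · rw [if_neg hb]
        refine TP_one h c' (fun c => PC b ⟨.X p, i⟩ n c c') fun c => ?_
        show ((∀ j ≤ n, j ≠ i + 1 → c (Fin.ofNat (n + 1) j) = c' j) ∧
            (if b = decide (i % 2 = 0) then c (Fin.ofNat (n + 1) i) = c (Fin.ofNat (n + 1) (i + 2))
              else c (Fin.ofNat (n + 1) (i + 1)) = c' (i + 1))) ↔ _
        rw [if_neg hb]
        constructor
        · rintro ⟨h1, h2⟩ j hj
          by_cases hj1 : j = i + 1
          · rw [hj1]
            exact h2
          · exact h1 j hj hj1
        · intro h1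
          exact ⟨fun j hj _ => h1 j hj, h1 (i + 1) (by omega)⟩

end Pool.ALT
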