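import Pool.Agent.ALT.Mo.St

/-! # ALT, block Mo, module TR: the transfer formula (helper31) -/

set_option autoImplicit false

namespace Pool.ALT

open LaurentPolynomial Pool.Agent.ARB Pool.Agent.Helper2

theorem tr_run (M : Model ℤ ((ℕ → Bool) → ℤ)) (B : ℕ → Bool) (s : Piece) (w : Word)
    (ψ : (ℕ → Bool) → ℤ) : runC M (jo B (s :: w)) ψ =
      runC M (jo (fun k => B (k + (if s.k = .U ∨ s.k = .N then 0 else 1))) w)
        (pop M (B 0) s ψ) := by
  obtain ⟨k, i⟩ := s
  cases k with
  | U => rfl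
  | N => rfl
  | X p =>
    by_cases h : B 0 = decide (i % 2 = 0)
    · have h1 : jo B (⟨.X p, i⟩ :: w) = pN i :: pU i :: jo (fun k => B (k + 1)) w := if_pos h
      have h2 : pop M (B 0) ⟨.X p, i⟩ ψ = M.cup i (M.cap i ψ) := if_pos h
      rw [h1, h2]
      rfl
    · have h1 : jo B (⟨.X p, i⟩ :: w) = jo (fun k => B (k + 1)) w := if_neg h
      have h2 : pop M (B 0) ⟨.X p, i⟩ ψ = ψ := if_neg h
      rw [h1, h2]
      rfl

open Classical in
theorem thm_TR (hTP : St_TP) (hTC : St_TC) : St_TR := by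
  intro M hM B w
  induction w generalizing B with
  | nil =>
    intro n m ψ d hok hDep
    have hnm : n = m := hok
    subst hnm
    have h1 : (Finset.univ.filter (fun f : Loc n [] → Bool =>
        Cp B n [] f ∧ ∀ j ≤ n, f (tp n [] j) = d j)) =
        {(fun x => d (show Fin (n + 1) from x).val : Loc n [] → Bool)} := by
      ext f
      rw [Finset.mem_filter, Finset.mem_singleton]
      constructor
      · rintro ⟨_, _, h⟩
        funext x
        have h2 := h (show Fin (n + 1) from x).val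
          (Nat.lt_succ_iff.1 (show Fin (n + 1) from x).isLt)
        have h3 : tp n [] (show Fin (n + 1) from x).val = x := by
          show Fin.ofNat (n + 1) (show Fin (n + 1) from x).val = x
          exact Fin.ofNat_val_eq_self _
        rw [h3] at h2
        exact h2
      · rintro rfl
        refine ⟨Finset.mem_univ _, ⟨fun x y h => h.elim, fun k => k.elim0⟩, fun j hj => ?_⟩
        show d (Fin.ofNat (n + 1) j).val = d j
        rw [Fin.val_ofNat, Nat.mod_eq_of_lt (by omega)]
    rw [h1, Finset.sum_singleton]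
    show ψ d = ψ _
    refine hDep _ _ fun j hj => ?_
    show d j = d (Fin.ofNat (n + 1) j).val
    rw [Fin.val_ofNat, Nat.mod_eq_of_lt (by omega)]
  | cons s w ih =>
    intro n m ψ d hok hDep
    rw [tr_run]
    have h1 := hTP M hM (B 0) s n ψ
    rw [ih _ _ m _ d hok.2 ((h1 d hok.1 hDep).1)]
    have h2 : ∀ f : Loc (n - s.k.inn + s.k.out) w → Bool,
        pop M (B 0) s ψ (fun j => f (bo (n - s.k.inn + s.k.out) w j)) =
        ∑ c : Fin (n + 1) → Bool with PC (B 0) s n (fun j => c (Fin.ofNat (n + 1) j))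
          (fun j => f (bo (n - s.k.inn + s.k.out) w j)), ψ (fun j => c (Fin.ofNat (n + 1) j)) :=
      fun f => (h1 _ hok.1 hDep).2
    rw [Finset.sum_congr rfl fun f _ => h2 f, Finset.sum_sigma']
    refine Finset.sum_bij'
      (fun p _ => (fun x => Sum.elim p.2 p.1
        (show Fin (n + 1) ⊕ Loc (n - s.k.inn + s.k.out) w from x) : Loc n (s :: w) → Bool))
      (fun f _ => ⟨fun x => f (Sum.inr x : Fin (n + 1) ⊕ Loc (n - s.k.inn + s.k.out) w),
        fun x => f (Sum.inl x : Fin (n + 1) ⊕ Loc (n - s.k.inn + s.k.out) w)⟩) ?_ ?_ ?_ ?_ ?_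
    · rintro ⟨f, c⟩ hp
      rw [Finset.mem_sigma, Finset.mem_filter, Finset.mem_filter] at hp
      obtain ⟨⟨_, h3, h4⟩, _, h5⟩ := hp
      rw [Finset.mem_filter]
      exact ⟨Finset.mem_univ _, (hTC B s w n m hok c f).2 ⟨h5, h3⟩, h4⟩
    · intro f hf
      rw [Finset.mem_filter] at hf
      obtain ⟨_, h3, h4⟩ := hf
      have h5 : f = (fun x => Sum.elim
          (fun x => f (Sum.inl x : Fin (n + 1) ⊕ Loc (n - s.k.inn + s.k.out) w))
          (fun x => f (Sum.inr x : Fin (n + 1) ⊕ Loc (n - s.k.inn + s.k.out) w))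
          (show Fin (n + 1) ⊕ Loc (n - s.k.inn + s.k.out) w from x)) := by
        funext x
        rcases (show Fin (n + 1) ⊕ Loc (n - s.k.inn + s.k.out) w from x) with x | x
        · rfl
        · rfl
      rw [h5] at h3
      have h6 := (hTC B s w n m hok _ _).1 h3
      rw [Finset.mem_sigma, Finset.mem_filter, Finset.mem_filter]
      exact ⟨⟨Finset.mem_univ _, h6.2, h4⟩, Finset.mem_univ _, h6.1⟩
    · rintro ⟨f, c⟩ _
      rfl
    · intro f _
      funext x
      rcases (show Fin (n + 1) ⊕ Loc (n - s.k.inn + s.k.out) w from x) with x | x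
      · rfl
      · rfl
    · rintro ⟨f, c⟩ _
      rfl

end Pool.ALT
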