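import Pool.Agent.ALT.Mo.JO
import Pool.Agent.ALT.Mo.SJ
import Pool.Agent.ALT.Mo.NF
import Pool.Agent.ALT.Mo.RM
import Pool.Agent.ALT.Mo.TP
import Pool.Agent.ALT.Mo.TC
import Pool.Agent.ALT.Mo.TR
import Pool.Agent.ALT.Mo.CA
import Pool.Agent.ALT.Mo.CO
import Pool.Agent.ALT.Mo.CT
import Pool.Agent.ALT.Mo.PR
import Pool.Agent.ALT.Mo.DU
import Pool.Agent.ALT.Mo.LO
import Pool.Agent.ALT.Mo.LF
import Pool.Agent.ALT.Mo.HE
import Pool.Agent.ALT.Mo.HP
import Pool.Agent.ALT.Mo.PB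

/-! # ALT, block Mo: all statements, without hypotheses -/

set_option autoImplicit false

namespace Pool.ALT

open LaurentPolynomial Pool.Agent.ARB Pool.Agent.Helper2

theorem mo_TR : St_TR := thm_TR thm_TP thm_TC

theorem mo_CO : St_CO := thm_CO thm_CA

theorem mo_CT : St_CT := thm_CT thm_RM mo_TR mo_CO

theorem mo_DU : St_DU := thm_DU thm_JO thm_NF mo_CT thm_PR

theorem mo_LF : St_LF := thm_LF thm_JO thm_SJ thm_NF mo_CT mo_DU thm_LO

theorem mo_HP : St_HP := thm_HP thm_HE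

theorem mo_PB : St_PB := thm_PB thm_JO thm_NF mo_CT mo_LF mo_HP

/-- the two graphs of a leaf -/
theorem leaf_Lg {w : Word} (hw : IsLeaf w) : Lg (gE w hw.ok) (gO w hw.ok) := mo_LF w hw

/-- the bracket pair of a leaf -/
theorem leaf_pair {w : Word} (hw : IsLeaf w) : ∃ e : Bool, HasPair w
    (T (sg e * ((nX w : ℤ) - 2 * Fintype.card (Reg true w) + 2)) *
      phi e ((gE w hw.ok).be ⊥ Finset.univ))
    (T (sg e * ((nX w : ℤ) - 2 * Fintype.card (Reg true w) + 4)) *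
      phi e ((gE w hw.ok).al ⊥ Finset.univ)) := by
  obtain ⟨e, he⟩ := hw.alt
  exact ⟨e, mo_PB w hw e he⟩

end Pool.ALT
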