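import Pool.Agent.ALT.Mo.Lg
import Pool.Agent.ALT.Statement
import Pool.Agent.ARB.Bridge
import Pool.Agent.ARB.TopSts2
import Pool.Agent.Helper2.StateSum

/-! # ALT, block Mo: alternating tangle diagrams in Morse position, leaves, the two graphs

`Word`, `Piece`, `Ok`, `sh`, `NW`, `DW`, `rotW` are from `ARB/Defs.lean`. At a height with `n` strands
there are `n + 1` regions `0, ..., n` from left to right. -/

set_option autoImplicit false

namespace Pool.ALT

open LaurentPolynomial Pool.Agent.ARB Pool.Agent.Helper2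

/-! ### smoothings and models -/

/-- The smoothing in which the `k`-th crossing joins the two regions of even number if `B k = true`
and the two regions of odd number if `B k = false`. -/
def jo : (ℕ → Bool) → Word → Word
  | _, [] => []
  | B, ⟨.X _, i⟩ :: w =>
      if B 0 = decide (i % 2 = 0) then pN i :: pU i :: jo (fun k => B (k + 1)) w
      else jo (fun k => B (k + 1)) w
  | B, ⟨.U, i⟩ :: w => pU i :: jo B w
  | B, ⟨.N, i⟩ :: w => pN i :: jo B w

/-- no crossings -/
def NoX (w : Word) : Prop := ∀ s ∈ w, s.k = .U ∨ s.k = .N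

/-- the operator of a word without crossings in a model (crossings act as the identity) -/
def runC {R V : Type} [CommRing R] [AddCommGroup V] [Module R V] (M : Model R V) : Word → V → V
  | [], x => x
  | ⟨.U, i⟩ :: w, x => runC M w (M.cup i x)
  | ⟨.N, i⟩ :: w, x => runC M w (M.cap i x)
  | ⟨.X _, _⟩ :: w, x => runC M w x

/-- `w` acts in every model as `k` closed curves together with the identity (`t = false`) or with
cap and cup (`t = true`). -/
def Nf (w : Word) (k : ℕ) (t : Bool) : Prop :=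
  ∀ {R V : Type} [CommRing R] [AddCommGroup V] [Module R V] (M : Model R V) (j n : ℕ) (x : V),
    j + 2 ≤ n → M.Supp n x →
    runC M (sh j w) x = M.δ ^ k • (if t = true then M.cup j (M.cap j x) else x)

/-- delete the regions `i + 1`, `i + 2` -/
def dl (i : ℕ) (c : ℕ → Bool) : ℕ → Bool := fun j => if j ≤ i then c j else c (j + 2)

/-- insert a region `i + 1` of colour `b` into region `i` -/
def ins (i : ℕ) (b : Bool) (c : ℕ → Bool) : ℕ → Bool :=
  fun j => if j ≤ i then c j else if j = i + 1 then b else c (j - 2)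

/-! ### local regions -/

/-- the local regions: `n + 1` at every height -/
def Loc : ℕ → Word → Type
  | n, [] => Fin (n + 1)
  | n, s :: w => Fin (n + 1) ⊕ Loc (n - s.k.inn + s.k.out) w

noncomputable instance instFintypeLoc : ∀ (n : ℕ) (w : Word), Fintype (Loc n w)
  | n, [] => inferInstanceAs (Fintype (Fin (n + 1)))
  | n, s :: w => by
      have := instFintypeLoc (n - s.k.inn + s.k.out) w
      exact inferInstanceAs (Fintype (Fin (n + 1) ⊕ Loc (n - s.k.inn + s.k.out) w))

instance instDecidableEqLoc : ∀ (n : ℕ) (w : Word), DecidableEq (Loc n w)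
  | n, [] => inferInstanceAs (DecidableEq (Fin (n + 1)))
  | n, s :: w => by
      have := instDecidableEqLoc (n - s.k.inn + s.k.out) w
      exact inferInstanceAs (DecidableEq (Fin (n + 1) ⊕ Loc (n - s.k.inn + s.k.out) w))

/-- the regions at the bottom -/
def bo : (n : ℕ) → (w : Word) → ℕ → Loc n w
  | n, [], j => Fin.ofNat (n + 1) j
  | n, _ :: _, j => Sum.inl (Fin.ofNat (n + 1) j)

/-- the regions at the top -/
def tp : (n : ℕ) → (w : Word) → ℕ → Loc n w
  | n, [], j => Fin.ofNat (n + 1) j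
  | n, s :: w, j => Sum.inr (tp (n - s.k.inn + s.k.out) w j)

/-- parity of the number of a region -/
def pa : (n : ℕ) → (w : Word) → Loc n w → Bool
  | _, [], x => decide ((show Fin _ from x).val % 2 = 0)
  | _, s :: w, x => Sum.elim (fun j => decide (j.val % 2 = 0))
      (pa (_ - s.k.inn + s.k.out) w) (show _ ⊕ _ from x)

/-- region `j` below the piece and region `j'` above the piece touch -/
def gl (s : Piece) (j j' : ℕ) : Prop :=
  match s.k with
  | .U => (j ≤ s.i ∧ j' = j) ∨ (s.i ≤ j ∧ j' = j + 2)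
  | .N => (j' ≤ s.i ∧ j = j') ∨ (s.i ≤ j' ∧ j = j' + 2)
  | .X _ => j = j' ∧ j ≠ s.i + 1

/-- local regions at consecutive heights which touch -/
def R0 : (n : ℕ) → (w : Word) → Loc n w → Loc n w → Prop
  | _, [], _, _ => False
  | n, s :: w, x, y =>
      (∃ j j' : ℕ, j ≤ n ∧ j' ≤ n - s.k.inn + s.k.out ∧ gl s j j' ∧
        x = (Sum.inl (Fin.ofNat (n + 1) j) : Fin (n + 1) ⊕ Loc (n - s.k.inn + s.k.out) w) ∧
        y = (Sum.inr (bo (n - s.k.inn + s.k.out) w j') :
          Fin (n + 1) ⊕ Loc (n - s.k.inn + s.k.out) w)) ∨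
      ∃ x' y' : Loc (n - s.k.inn + s.k.out) w,
        x = (Sum.inr x' : Fin (n + 1) ⊕ Loc (n - s.k.inn + s.k.out) w) ∧
        y = (Sum.inr y' : Fin (n + 1) ⊕ Loc (n - s.k.inn + s.k.out) w) ∧
        R0 (n - s.k.inn + s.k.out) w x' y'

/-- the partition of the local regions into regions -/
def gs (n : ℕ) (w : Word) : Setoid (Loc n w) :=
  ⨆ (x : Loc n w) (y : Loc n w) (_ : R0 n w x y), pr x y

/-- the two regions of parity `r` at the `k`-th crossing (`r = true`: even) -/
def ed (r : Bool) : (n : ℕ) → (w : Word) → Fin (nX w) → Loc n w × Loc n w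
  | n, [], _ => (bo n [] 0, bo n [] 0)
  | n, ⟨.X p, i⟩ :: w, k => Fin.cases
      (if decide (i % 2 = 0) = r then
        (bo n (⟨.X p, i⟩ :: w) i, bo n (⟨.X p, i⟩ :: w) (i + 2))
      else (bo n (⟨.X p, i⟩ :: w) (i + 1), Sum.inr (bo (n - 2 + 2) w (i + 1))))
      (fun k' : Fin (nX w) =>
        (Sum.inr (ed r (n - 2 + 2) w k').1, Sum.inr (ed r (n - 2 + 2) w k').2)) k
  | n, ⟨.U, _⟩ :: w, k => (Sum.inr (ed r (n - 0 + 2) w k).1, Sum.inr (ed r (n - 0 + 2) w k).2)
  | n, ⟨.N, _⟩ :: w, k => (Sum.inr (ed r (n - 2 + 0) w k).1, Sum.inr (ed r (n - 2 + 0) w k).2)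

/-! ### parity -/

theorem pa_bo : ∀ (n : ℕ) (w : Word) (j : ℕ), j ≤ n → pa n w (bo n w j) = decide (j % 2 = 0)
  | n, [], j, h => by
      show decide ((Fin.ofNat (n + 1) j).val % 2 = 0) = _
      rw [Fin.val_ofNat, Nat.mod_eq_of_lt (show j < n + 1 by omega)]
  | n, s :: w, j, h => by
      show decide ((Fin.ofNat (n + 1) j).val % 2 = 0) = _
      rw [Fin.val_ofNat, Nat.mod_eq_of_lt (show j < n + 1 by omega)]

theorem pa_tp : ∀ (w : Word) (n m : ℕ) (j : ℕ), Ok w n m → j ≤ m →
    pa n w (tp n w j) = decide (j % 2 = 0)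
  | [], n, m, j, h, hj => by
      have h' : n = m := h
      subst h'
      show decide ((Fin.ofNat (n + 1) j).val % 2 = 0) = _
      rw [Fin.val_ofNat, Nat.mod_eq_of_lt (show j < n + 1 by omega)]
  | s :: w, n, m, j, h, hj => pa_tp w _ m j h.2 hj

theorem pa_R0 : ∀ (w : Word) (n m : ℕ) (x y : Loc n w), Ok w n m → R0 n w x y →
    pa n w x = pa n w y
  | [], _, _, _, _, _, h => h.elim
  | s :: w, n, m, x, y, hok, h => by
      rcases h with ⟨j, j', hj, hj', hg, rfl, rfl⟩ | ⟨x', y', rfl, rfl, h⟩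
      · have e1 : pa n (s :: w) (bo n (s :: w) j) = decide (j % 2 = 0) := pa_bo n (s :: w) j hj
        have e2 := pa_bo (n - s.k.inn + s.k.out) w j' hj'
        have e3 : j % 2 = j' % 2 := by
          obtain ⟨k, i⟩ := s
          cases k <;> simp only [gl] at hg <;> omega
        show pa n (s :: w) (bo n (s :: w) j) = pa (n - s.k.inn + s.k.out) w (bo _ w j')
        rw [e1, e2, e3]
      · exact pa_R0 w _ m x' y' hok.2 h

theorem pa_gs {w : Word} {n m : ℕ} (hok : Ok w n m) {x y : Loc n w} (h : gs n w x y) :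
    pa n w x = pa n w y := by
  have h1 : gs n w ≤ Setoid.ker (pa n w) :=
    iSup_le fun x => iSup_le fun y => iSup_le fun h => (pr_le_iff _ _ _).2 (pa_R0 w n m x y hok h)
  exact h1 h

theorem pa_ed : ∀ (w : Word) (n m : ℕ) (r : Bool) (k : Fin (nX w)), Ok w n m →
    pa n w (ed r n w k).1 = r ∧ pa n w (ed r n w k).2 = r
  | [], _, _, _, k, _ => k.elim0
  | ⟨.X p, i⟩ :: w, n, m, r, k, hok => by
      refine Fin.cases ?_ (fun k' => ?_) k
      · have hi : i + 2 ≤ n := hok.1
        show pa n (⟨.X p, i⟩ :: w) (if decide (i % 2 = 0) = r then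
          (bo n (⟨.X p, i⟩ :: w) i, bo n (⟨.X p, i⟩ :: w) (i + 2))
          else (bo n (⟨.X p, i⟩ :: w) (i + 1), Sum.inr (bo (n - 2 + 2) w (i + 1)))).1 = r ∧
          pa n (⟨.X p, i⟩ :: w) (if decide (i % 2 = 0) = r then
          (bo n (⟨.X p, i⟩ :: w) i, bo n (⟨.X p, i⟩ :: w) (i + 2))
          else (bo n (⟨.X p, i⟩ :: w) (i + 1), Sum.inr (bo (n - 2 + 2) w (i + 1)))).2 = r
        split_ifs with h
        · exact ⟨(pa_bo _ _ _ (by omega)).trans h, (pa_bo _ _ _ (by omega)).trans (by
            rw [← h]; congr 1; simp)⟩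
        · have h' : decide ((i + 1) % 2 = 0) = r := by
            cases r
            · simp only [decide_eq_false_iff_not, not_not] at h ⊢
              omega
            · simp only [decide_eq_true_eq] at h ⊢
              omega
          exact ⟨(pa_bo _ _ _ (by omega)).trans h', (pa_bo (n - 2 + 2) w _ (by omega)).trans h'⟩
      · exact pa_ed w (n - 2 + 2) m r k' hok.2
  | ⟨.U, _⟩ :: w, n, m, r, k, hok => pa_ed w (n - 0 + 2) m r k hok.2
  | ⟨.N, _⟩ :: w, n, m, r, k, hok => pa_ed w (n - 2 + 0) m r k hok.2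

/-- the regions of parity `r` (`true`: even) of a word on 2 strands -/
def Reg (r : Bool) (w : Word) : Type := {c : Quotient (gs 2 w) // ∃ x, pa 2 w x = r ∧ Quotient.mk _ x = c}

noncomputable instance (r : Bool) (w : Word) : Fintype (Reg r w) := by
  classical
  have : Finite (Quotient (gs 2 w)) := Quotient.finite _
  have : Finite (Reg r w) := inferInstanceAs (Finite {c : Quotient (gs 2 w) // _})
  exact Fintype.ofFinite _

/-- the region of a local region -/
def reg {r : Bool} {w : Word} (x : Loc 2 w) (h : pa 2 w x = r) : Reg r w :=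
  ⟨Quotient.mk _ x, x, h, rfl⟩

/-- the graph of the even regions; marked vertices: left and right -/
def gE (w : Word) (h : Ok w 2 2) : Gr (Reg true w) (Fin (nX w)) where
  u k := reg (ed true 2 w k).1 (pa_ed w 2 2 true k h).1
  v k := reg (ed true 2 w k).2 (pa_ed w 2 2 true k h).2
  a := reg (bo 2 w 0) (pa_bo 2 w 0 (by omega))
  b := reg (bo 2 w 2) (pa_bo 2 w 2 (by omega))

/-- the graph of the odd regions; marked vertices: bottom and top -/
def gO (w : Word) (h : Ok w 2 2) : Gr (Reg false w) (Fin (nX w)) where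
  u k := reg (ed false 2 w k).1 (pa_ed w 2 2 false k h).1
  v k := reg (ed false 2 w k).2 (pa_ed w 2 2 false k h).2
  a := reg (bo 2 w 1) (pa_bo 2 w 1 (by omega))
  b := reg (tp 2 w 1) (pa_tp w 2 2 1 h (by omega))

/-- the sequence of Booleans of a set of crossings -/
def seq {n : ℕ} (A : Finset (Fin n)) : ℕ → Bool := fun k => decide (∃ h : k < n, (⟨k, h⟩ : Fin n) ∈ A)

/-- `f` is a colouring of the regions of the state `B` -/
def Cp (B : ℕ → Bool) (n : ℕ) (w : Word) (f : Loc n w → Bool) : Prop :=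
  (∀ x y, R0 n w x y → f x = f y) ∧
    ∀ k : Fin (nX w), f (ed (B k) n w k).1 = f (ed (B k) n w k).2

/-- the model by colourings of the regions with two colours -/
structure RMod (M : Model ℤ ((ℕ → Bool) → ℤ)) : Prop where
  del : M.δ = 2
  supp : ∀ n ψ, M.Supp n ψ
  cup : ∀ (i : ℕ) (ψ : (ℕ → Bool) → ℤ) (c : ℕ → Bool),
    M.cup i ψ c = if c i = c (i + 2) then ψ (dl i c) else 0
  cap : ∀ (i : ℕ) (ψ : (ℕ → Bool) → ℤ) (c : ℕ → Bool),
    M.cap i ψ c = ψ (ins i true c) + ψ (ins i false c)

/-- `ψ` depends only on the colours of the regions `0, ..., n` -/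
def Dep (n : ℕ) (ψ : (ℕ → Bool) → ℤ) : Prop :=
  ∀ c c' : ℕ → Bool, (∀ j ≤ n, c j = c' j) → ψ c = ψ c'

/-! ### the bracket pair -/

/-- `(γ, β)` are the coefficients of the operator of the tangle `w` -/
def HasPair (w : Word) (g b : LP) : Prop :=
  ∀ (V : Type) [AddCommGroup V] [Module LP V] (M : Model LP V), Good M →
    ∀ (j n : ℕ) (x : V), j + 2 ≤ n → M.Supp n x →
      runW M (sh j w) x = b • x + g • M.cup j (M.cap j x)

/-- `4` or `-4`, `1` or `-1` -/
def sg (e : Bool) : ℤ := if e then 1 else -1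

/-- the unit `-A ^ (4 e)` -/
noncomputable def u4 (e : Bool) : LPˣ where
  val := -T (4 * sg e)
  inv := -T (-(4 * sg e))
  val_inv := by
    rw [neg_mul_neg, ← T_add, add_neg_cancel, T_zero]
  inv_val := by
    rw [neg_mul_neg, ← T_add, neg_add_cancel, T_zero]

/-- the substitution `s = -A ^ (4 e)` -/
noncomputable def phi (e : Bool) : LP →+* LP := LaurentPolynomial.eval₂ (Int.castRingHom LP) (u4 e)

end Pool.ALT
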