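import Pool.Agent.ALT.Mo.St

/-! # ALT, block Mo, module JO: smoothings of words -/

set_option autoImplicit false

namespace Pool.ALT

open Pool.Agent.ARB Pool.Agent.Helper2

private theorem jo_ok : ∀ (w : Word) (B : ℕ → Bool) (n m : ℕ), Ok w n m →
    NoX (jo B w) ∧ Ok (jo B w) n m
  | [], _, _, _, h => ⟨fun s hs => absurd hs (by simp [jo]), h⟩
  | ⟨.U, i⟩ :: w, B, n, m, h => by
      obtain ⟨h1, h2⟩ := jo_ok w B _ m h.2
      refine ⟨fun s hs => ?_, h.1, h2⟩
      simp only [jo, List.mem_cons] at hs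
      rcases hs with rfl | hs
      · exact Or.inl rfl
      · exact h1 s hs
  | ⟨.N, i⟩ :: w, B, n, m, h => by
      obtain ⟨h1, h2⟩ := jo_ok w B _ m h.2
      refine ⟨fun s hs => ?_, h.1, h2⟩
      simp only [jo, List.mem_cons] at hs
      rcases hs with rfl | hs
      · exact Or.inr rfl
      · exact h1 s hs
  | ⟨.X p, i⟩ :: w, B, n, m, h => by
      have hi : i + 2 ≤ n := h.1
      have h' : Ok w (n - 2 + 2) m := h.2
      obtain ⟨h1, h2⟩ := jo_ok w (fun k => B (k + 1)) _ m h'
      simp only [jo]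
      split_ifs with hB
      · refine ⟨fun s hs => ?_, ⟨hi, ?_⟩⟩
        · simp only [List.mem_cons] at hs
          rcases hs with rfl | rfl | hs
          · exact Or.inr rfl
          · exact Or.inl rfl
          · exact h1 s hs
        · refine ⟨by show i + 0 ≤ n - 2 + 0; omega, ?_⟩
          have e : n - 2 + 0 - 0 + 2 = n - 2 + 2 := by omega
          show Ok (jo _ w) (n - 2 + 0 - 0 + 2) m
          rw [e]
          exact h2
      · refine ⟨h1, ?_⟩
        have e : n - 2 + 2 = n := by omega
        rw [e] at h2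
        exact h2

private theorem jo_congr : ∀ (w : Word) (B B' : ℕ → Bool), (∀ k < nX w, B k = B' k) →
    jo B w = jo B' w
  | [], _, _, _ => rfl
  | ⟨.U, i⟩ :: w, B, B', h => by
      simp only [jo]
      rw [jo_congr w B B' h]
  | ⟨.N, i⟩ :: w, B, B', h => by
      simp only [jo]
      rw [jo_congr w B B' h]
  | ⟨.X p, i⟩ :: w, B, B', h => by
      have h0 : B 0 = B' 0 := h 0 (Nat.succ_pos _)
      simp only [jo]
      rw [h0, jo_congr w (fun k => B (k + 1)) (fun k => B' (k + 1))
        (fun k hk => h (k + 1) (Nat.succ_lt_succ hk))]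

theorem thm_JO : St_JO := ⟨fun B w n m h => jo_ok w B n m h, jo_congr⟩

end Pool.ALT
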