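import Pool.Agent.ALT.Mo.St

/-! # ALT, block Mo: the bracket pair of a leaf is the activity pair of its even graph (helper27) -/

set_option autoImplicit false

namespace Pool.ALT

open LaurentPolynomial Pool.Agent.ARB Pool.Agent.Helper2

theorem pb_lv (s : ℤ) : (T s * loopVal : LP) = -(T (s + 2) + T (s + -2)) := by
  unfold loopVal
  rw [mul_neg, mul_add, ← T_add, ← T_add]

theorem pb_uu (e : Bool) : phi e uu = T (2 * sg e) * loopVal := by
  have h1 : phi e (T 1) = -T (4 * sg e) := by
    unfold phi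
    rw [LaurentPolynomial.eval₂_T, zpow_one]
    rfl
  rw [pb_lv]
  unfold uu
  rw [map_sub, map_one, h1]
  cases e
  · have h2 : sg false = -1 := rfl
    have h3 : (2 * -1 + 2 : ℤ) = 0 := by norm_num
    have h4 : (2 * -1 + -2 : ℤ) = 4 * -1 := by norm_num
    rw [h2, h3, h4, T_zero]
    ring
  · have h2 : sg true = 1 := rfl
    have h3 : (2 * 1 + 2 : ℤ) = 4 * 1 := by norm_num
    have h4 : (2 * 1 + -2 : ℤ) = 0 := by norm_num
    rw [h2, h3, h4, T_zero]
    ring

theorem pb_vv (e : Bool) : phi e vv = T (-(2 * sg e)) * loopVal := by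
  have h1 : phi e (T (-1)) = -T (-(4 * sg e)) := by
    unfold phi
    rw [LaurentPolynomial.eval₂_T, zpow_neg_one]
    rfl
  rw [pb_lv]
  unfold vv
  rw [map_sub, map_one, h1]
  cases e
  · have h2 : sg false = -1 := rfl
    have h3 : (-(2 * -1) + 2 : ℤ) = -(4 * -1) := by norm_num
    have h4 : (-(2 * -1) + -2 : ℤ) = 0 := by norm_num
    rw [h2, h3, h4, T_zero]
    ring
  · have h2 : sg true = 1 := rfl
    have h3 : (-(2 * 1) + 2 : ℤ) = 0 := by norm_num
    have h4 : (-(2 * 1) + -2 : ℤ) = -(4 * 1) := by norm_num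
    rw [h2, h3, h4, T_zero]
    ring

theorem pb_term (e : Bool) (c z : ℤ) (i j k : ℕ) (hk : i + j = k)
    (hz : c + 2 * sg e * i - 2 * sg e * j = z) :
    T c * phi e (uu ^ i * vv ^ j) = (T z : LP) * loopVal ^ k := by
  rw [map_mul, map_pow, map_pow, pb_uu, pb_vv, mul_pow, mul_pow, T_pow, T_pow, ← hk, ← hz]
  have h : (c + 2 * sg e * i - 2 * sg e * j : ℤ) =
      c + (i * (2 * sg e) + j * (-(2 * sg e))) := by ring
  rw [h, T_add, T_add, pow_add]
  ring

/-- [PB] -/
theorem thm_PB (hJO : St_JO) (hNF : St_NF) (hCT : St_CT) (hLF : St_LF) (hHP : St_HP) : St_PB := by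
  classical
  intro w hw e halt
  have hL := hLF w hw
  have hD := hL.du
  have hne : Nonempty (Reg true w) := ⟨(gE w hw.ok).a⟩
  have hne' : Nonempty (Reg false w) := ⟨(gO w hw.ok).a⟩
  have hb : nc (⊥ : Setoid (Reg true w)) = Fintype.card (Reg true w) := by
    rw [nc_bot, Nat.card_eq_fintype_card]
  have hK : (gE w hw.ok).K ⊥ Finset.univ = 1 := by
    unfold Gr.K
    have h1 := nc_anti (le_sup_left : (gE w hw.ok).sp ⊥ Finset.univ ≤
      (gE w hw.ok).sp ⊥ Finset.univ ⊔ (gE w hw.ok).ab)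
    have h2 := nc_pos ((gE w hw.ok).sp ⊥ Finset.univ ⊔ (gE w hw.ok).ab)
    have h3 := hD.con
    omega
  have hex : ∀ A : Finset (Fin (nX w)), ∃ (k : ℕ) (t : Bool), Nf (jo (seq A) w) k t :=
    fun A => hNF _ (hJO.1 _ _ _ _ hw.ok).1 (hJO.1 _ _ _ _ hw.ok).2
  choose k t hkt using hex
  have hge : ∀ A : Finset (Fin (nX w)),
      Fintype.card (Reg true w) ≤ nc ((gE w hw.ok).sp ⊥ A) + A.card := by
    intro A
    have := (gE w hw.ok).nc_le_add_card ⊥ A
    rw [hb] at this
    exact this
  -- the number `k A`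
  have hkt1 : ∀ A : Finset (Fin (nX w)), t A = true →
      k A + Fintype.card (Reg true w) + 1 = 2 * nc ((gE w hw.ok).sp ⊥ A) + A.card := by
    intro A hA
    obtain ⟨h1, h2, h3⟩ := hCT w hw.ok A (k A) (t A) (hkt A)
    have h4 := hD.du A
    have h5 : ¬ (gO w hw.ok).sp ⊥ (Finset.univ \ A) (gO w hw.ok).a (gO w hw.ok).b := by
      rw [h3, hA]
      decide
    have h6 := nc_sup_pr h5
    have h7 : (gO w hw.ok).ab = pr (gO w hw.ok).a (gO w hw.ok).b := rfl
    rw [h7] at h4
    omega
  have hkt0 : ∀ A : Finset (Fin (nX w)), ¬ t A = true →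
      k A + Fintype.card (Reg true w) + 2 = 2 * nc ((gE w hw.ok).sp ⊥ A) + A.card := by
    intro A hA
    obtain ⟨h1, h2, h3⟩ := hCT w hw.ok A (k A) (t A) (hkt A)
    have h4 := hD.du A
    have hA' : t A = false := by simpa using hA
    have h5 : (gO w hw.ok).sp ⊥ (Finset.univ \ A) (gO w hw.ok).a (gO w hw.ok).b := h3.2 hA'
    have h6 : (gO w hw.ok).sp ⊥ (Finset.univ \ A) ⊔ (gO w hw.ok).ab =
        (gO w hw.ok).sp ⊥ (Finset.univ \ A) := sup_pr_of _ h5
    rw [h6] at h4
    omega
  have hjoin : ∀ A : Finset (Fin (nX w)),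
      ((gE w hw.ok).sp ⊥ A (gE w hw.ok).a (gE w hw.ok).b ↔ t A = true) :=
    fun A => (hCT w hw.ok A (k A) (t A) (hkt A)).2.1
  have hP := hHP e w k t hw.ok halt hkt
  have e1 : (T (sg e * ((nX w : ℤ) - 2 * Fintype.card (Reg true w) + 2)) *
      phi e ((gE w hw.ok).be ⊥ Finset.univ) : LP) =
      ∑ A : Finset (Fin (nX w)) with t A = true,
        T (sg e * ((nX w : ℤ) - 2 * A.card)) * loopVal ^ k A := by
    unfold Gr.be
    rw [map_sum, Finset.mul_sum, Finset.powerset_univ]
    refine Finset.sum_congr ?_ fun A hA => ?_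
    · ext A
      simp only [Finset.mem_filter, Finset.mem_univ, true_and]
      exact hjoin A
    · rw [Finset.mem_filter] at hA
      have h1 := hkt1 A hA.2
      have h2 := hge A
      have h3 := nc_pos ((gE w hw.ok).sp ⊥ A)
      refine pb_term e _ _ _ _ _ ?_ ?_
      · unfold Gr.nul
        rw [hK, hb]
        omega
      · have h4 : ((gE w hw.ok).nul ⊥ A : ℤ) =
            A.card + nc ((gE w hw.ok).sp ⊥ A) - Fintype.card (Reg true w) := by
          unfold Gr.nul
          rw [hb, Nat.cast_sub (by omega)]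
          push_cast
          ring
        rw [h4, hK, Nat.cast_sub (by omega)]
        push_cast
        ring
  have e2 : (T (sg e * ((nX w : ℤ) - 2 * Fintype.card (Reg true w) + 4)) *
      phi e ((gE w hw.ok).al ⊥ Finset.univ) : LP) =
      ∑ A : Finset (Fin (nX w)) with ¬ t A = true,
        T (sg e * ((nX w : ℤ) - 2 * A.card)) * loopVal ^ k A := by
    unfold Gr.al
    rw [map_sum, Finset.mul_sum, Finset.powerset_univ]
    refine Finset.sum_congr ?_ fun A hA => ?_
    · ext A
      simp only [Finset.mem_filter, Finset.mem_univ, true_and]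
      exact not_congr (hjoin A)
    · rw [Finset.mem_filter] at hA
      have h1 := hkt0 A hA.2
      have h2 := hge A
      have h3 : 2 ≤ nc ((gE w hw.ok).sp ⊥ A) := by
        have h5 : ¬ (gE w hw.ok).sp ⊥ A (gE w hw.ok).a (gE w hw.ok).b := by
          rw [hjoin A]
          exact hA.2
        have h6 := nc_sup_pr h5
        have h7 := nc_pos ((gE w hw.ok).sp ⊥ A ⊔ pr (gE w hw.ok).a (gE w hw.ok).b)
        omega
      refine pb_term e _ _ _ _ _ ?_ ?_
      · unfold Gr.nul
        rw [hK, hb]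
        omega
      · have h4 : ((gE w hw.ok).nul ⊥ A : ℤ) =
            A.card + nc ((gE w hw.ok).sp ⊥ A) - Fintype.card (Reg true w) := by
          unfold Gr.nul
          rw [hb, Nat.cast_sub (by omega)]
          push_cast
          ring
        rw [h4, hK, Nat.sub_sub, Nat.cast_sub (by omega)]
        push_cast
        ring
  rw [e1, e2]
  exact hP

end Pool.ALT
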